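import Pool.Agent.J6H26.NS.Eig

/-! # Projections such that the norm depends only on the norms of the two parts -/

set_option autoImplicit false
set_option linter.unusedSectionVars false

namespace Pool.Agent.J6H26.NS

open Pool.Agent.J6H26.CP Filter Topology

variable {E : Type*} [NormedAddCommGroup E] [NormedSpace ℝ E]

/-- `P` is a projection and `‖x‖` depends only on `‖P x‖` and `‖x - P x‖`. -/
structure Abs (P : E →L[ℝ] E) : Prop where
  idem : ∀ x, P (P x) = P x
  dep : ∀ x x', ‖P x‖ = ‖P x'‖ → ‖x - P x‖ = ‖x' - P x'‖ → ‖x‖ = ‖x'‖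

namespace Abs

variable {P : E →L[ℝ] E}

lemma refl_norm (hP : Abs P) (x : E) : ‖(2 : ℝ) • P x - x‖ = ‖x‖ := by
  have h1 : P ((2 : ℝ) • P x - x) = P x := by
    rw [map_sub, map_smul, hP.idem]
    module
  refine hP.dep _ _ (by rw [h1]) ?_
  rw [h1]
  have : (2 : ℝ) • P x - x - P x = -(x - P x) := by module
  rw [this, norm_neg]

/-- the operator `2 P - 1` -/
noncomputable def rl (P : E →L[ℝ] E) : E →ₗ[ℝ] E := ((2 : ℝ) • P - 1 : E →L[ℝ] E)

lemma rl_apply (x : E) : rl P x = (2 : ℝ) • P x - x := rfl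

lemma invol (hP : Abs P) : Function.Involutive (rl P) := by
  intro x
  simp only [rl_apply, map_sub, map_smul, hP.idem]
  module

/-- the reflection `2 P - 1` -/
noncomputable def rf (hP : Abs P) : E ≃ₗᵢ[ℝ] E where
  toLinearEquiv := LinearEquiv.ofInvolutive (rl P) hP.invol
  norm_map' := fun x => hP.refl_norm x

lemma rf_apply (hP : Abs P) (x : E) : hP.rf x = (2 : ℝ) • P x - x := rfl

lemma rf_mul (hP : Abs P) : hP.rf * hP.rf = 1 := by
  ext x
  show hP.rf (hP.rf x) = x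
  simp only [rf_apply, map_sub, map_smul, hP.idem]
  module

lemma norm_le (hP : Abs P) (x : E) : ‖P x‖ ≤ ‖x‖ := by
  have h1 : P x = (1 / 2 : ℝ) • (x + ((2 : ℝ) • P x - x)) := by module
  rw [h1, norm_smul, Real.norm_of_nonneg (by norm_num)]
  have := norm_add_le x ((2 : ℝ) • P x - x)
  rw [hP.refl_norm] at this
  linarith

lemma norm_le' (hP : Abs P) (x : E) : ‖x - P x‖ ≤ ‖x‖ := by
  have h1 : x - P x = (1 / 2 : ℝ) • (x - ((2 : ℝ) • P x - x)) := by module
  rw [h1, norm_smul, Real.norm_of_nonneg (by norm_num)]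
  have := norm_sub_le x ((2 : ℝ) • P x - x)
  rw [hP.refl_norm] at this
  linarith

variable {U : E ≃ₗᵢ[ℝ] E}

lemma rf_U (hP : Abs P) (hU : hP.rf * U * hP.rf = U⁻¹) (x : E) :
    hP.rf (U x) = U⁻¹ (hP.rf x) := by
  rw [← hU]
  show hP.rf (U x) = hP.rf (U (hP.rf (hP.rf x)))
  have : hP.rf (hP.rf x) = x := congrArg (fun T : E ≃ₗᵢ[ℝ] E => T x) hP.rf_mul
  rw [this]

lemma rf_Uinv (hP : Abs P) (hU : hP.rf * U * hP.rf = U⁻¹) (x : E) :
    hP.rf (U⁻¹ x) = U (hP.rf x) := by
  rw [← hU]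
  show hP.rf (hP.rf (U (hP.rf x))) = _
  exact congrArg (fun T : E ≃ₗᵢ[ℝ] E => T (U (hP.rf x))) hP.rf_mul

lemma P_Co (hP : Abs P) (hU : hP.rf * U * hP.rf = U⁻¹) (x : E) : P (Co U x) = Co U (P x) := by
  have h1 : hP.rf (Co U x) = Co U (hP.rf x) := by
    rw [Co_apply, Co_apply, map_smul, map_add, hP.rf_U hU, hP.rf_Uinv hU, add_comm]
  rw [rf_apply, rf_apply, map_sub, map_smul] at h1
  have h2 : (2 : ℝ) • P (Co U x) = (2 : ℝ) • Co U (P x) := sub_left_injective h1
  exact smul_right_injective E (two_ne_zero) h2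

lemma P_Sk (hP : Abs P) (hU : hP.rf * U * hP.rf = U⁻¹) (x : E) :
    P (Sk U x) = Sk U (x - P x) := by
  have h1 : hP.rf (Sk U x) = -Sk U (hP.rf x) := by
    rw [Sk_apply, Sk_apply, map_smul, map_sub, hP.rf_U hU, hP.rf_Uinv hU]
    module
  rw [rf_apply, rf_apply, map_sub, map_smul] at h1
  have h2 : (2 : ℝ) • P (Sk U x) = (2 : ℝ) • Sk U (x - P x) := by
    rw [map_sub]
    have : (2 : ℝ) • P (Sk U x) = ((2 : ℝ) • P (Sk U x) - Sk U x) + Sk U x := by abel
    rw [this, h1]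
    module
  exact smul_right_injective E (two_ne_zero) h2

/-- an approximate eigenvector in the range of `P` -/
lemma part (hP : Abs P) (hU : hP.rf * U * hP.rf = U⁻¹) {c : ℝ} (hc : |c| < 1)
    (h : ∀ ε : ℝ, 0 < ε → ∃ x : E, ‖x‖ = 1 ∧ ‖Co U x - c • x‖ ≤ ε) {ε : ℝ} (hε : 0 < ε) :
    ∃ x : E, P x = x ∧ ‖x‖ = 1 ∧ ‖Co U x - c • x‖ ≤ ε := by
  have hc2 : 0 < 1 - c ^ 2 := by
    have := (sq_lt_one_iff_abs_lt_one c).2 hc
    linarith
  set q := 1 - c ^ 2 with hq
  have hq1 : q ≤ 1 := by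
    have := sq_nonneg c
    linarith
  set ε' := min (ε * q / 8) (q / 8) with hε'
  have hε'0 : 0 < ε' := by positivity
  have hε'1 : ε' ≤ ε * q / 8 := min_le_left _ _
  have hε'2 : ε' ≤ q / 8 := min_le_right _ _
  obtain ⟨x, hx, hCx⟩ := h ε' hε'0
  have hPa : P (Co U x - c • x) = Co U (P x) - c • P x := by
    rw [map_sub, hP.P_Co hU, map_smul]
  have ha : ‖Co U (P x) - c • P x‖ ≤ ε' := by
    rw [← hPa]
    exact (hP.norm_le _).trans hCx
  have hb : ‖Co U (x - P x) - c • (x - P x)‖ ≤ ε' := by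
    have e : Co U (x - P x) - c • (x - P x) = (Co U x - c • x) - P (Co U x - c • x) := by
      rw [hPa, map_sub]
      module
    rw [e]
    exact (hP.norm_le' _).trans hCx
  have hεq : ε * q / 8 ≤ ε / 8 := by nlinarith
  by_cases hbig : 1 / 4 ≤ ‖P x‖
  · have hpos : 0 < ‖P x‖ := by linarith
    refine ⟨‖P x‖⁻¹ • P x, by rw [map_smul, hP.idem], ?_, ?_⟩
    · rw [norm_smul, norm_inv, norm_norm, inv_mul_cancel₀ hpos.ne']
    · rw [map_smul, smul_comm, ← smul_sub, norm_smul, norm_inv, norm_norm, inv_mul_le_iff₀ hpos]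
      have h1 : ε / 8 ≤ ‖P x‖ * ε := by nlinarith
      linarith
  · push Not at hbig
    obtain ⟨b, hbd⟩ : ∃ b, b = x - P x := ⟨_, rfl⟩
    rw [← hbd] at hb
    have hbn : 3 / 4 ≤ ‖b‖ := by
      have : ‖x‖ ≤ ‖P x‖ + ‖b‖ := by
        calc ‖x‖ = ‖P x + b‖ := by rw [hbd, add_sub_cancel]
          _ ≤ _ := norm_add_le _ _
      linarith
    have hPb : P b = 0 := by rw [hbd, map_sub, hP.idem, sub_self]
    have hPS : P (Sk U b) = Sk U b := by rw [hP.P_Sk hU, hPb, sub_zero]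
    -- the size of `S b`
    have hS2 : Sk U (Sk U b) = -(q • b) + (Co U (Co U b - c • b) + c • (Co U b - c • b)) := by
      rw [Sk_Sk, map_sub, map_smul, hq]
      module
    have h1 : q * ‖b‖ ≤ ‖Sk U b‖ + 2 * ε' := by
      have e1 : q • b = -(Sk U (Sk U b)) + (Co U (Co U b - c • b) + c • (Co U b - c • b)) := by
        rw [hS2]; abel
      have e2 : ‖q • b‖ = q * ‖b‖ := by rw [norm_smul, Real.norm_of_nonneg hc2.le]
      rw [← e2, e1]
      refine (norm_add_le _ _).trans ?_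
      rw [norm_neg]
      have e3 := Sk_norm_le U (Sk U b)
      have e4 : ‖Co U (Co U b - c • b) + c • (Co U b - c • b)‖ ≤ 2 * ε' := by
        refine (norm_add_le _ _).trans ?_
        have e5 := (Co_norm_le U (Co U b - c • b)).trans hb
        have e6 : ‖c • (Co U b - c • b)‖ ≤ ε' := by
          rw [norm_smul, Real.norm_eq_abs]
          calc |c| * ‖Co U b - c • b‖ ≤ 1 * ε' := by
                apply mul_le_mul hc.le hb (norm_nonneg _) zero_le_one
            _ = ε' := one_mul _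
        linarith
      linarith
    have h2 : q / 2 ≤ ‖Sk U b‖ := by nlinarith
    have hpos : 0 < ‖Sk U b‖ := by linarith
    refine ⟨‖Sk U b‖⁻¹ • Sk U b, by rw [map_smul, hPS], ?_, ?_⟩
    · rw [norm_smul, norm_inv, norm_norm, inv_mul_cancel₀ hpos.ne']
    · rw [map_smul, smul_comm, ← smul_sub, norm_smul, norm_inv, norm_norm, inv_mul_le_iff₀ hpos]
      have e : Co U (Sk U b) - c • Sk U b = Sk U (Co U b - c • b) := by
        rw [Co_Sk, map_sub, map_smul]
      rw [e]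
      refine (Sk_norm_le U _).trans (hb.trans ?_)
      have h3 : ε * (q / 2) ≤ ‖Sk U b‖ * ε := by nlinarith
      nlinarith

/-- the planar norm -/
lemma norm_pair (hP : Abs P) {y z y0 z0 : E} (hy : P y = y) (hz : P z = 0) (hy0 : P y0 = y0)
    (hz0 : P z0 = 0) (hy1 : ‖y0‖ = 1) (hz1 : ‖z0‖ = 1) (a b : ℝ) (ha : |a| = ‖y‖) (hb : |b| = ‖z‖) :
    ‖y + z‖ = ‖a • y0 + b • z0‖ := by
  have e1 : P (y + z) = y := by rw [map_add, hy, hz, add_zero]
  have e2 : P (a • y0 + b • z0) = a • y0 := by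
    rw [map_add, map_smul, map_smul, hy0, hz0, smul_zero, add_zero]
  refine hP.dep _ _ ?_ ?_
  · rw [e1, e2, norm_smul, Real.norm_eq_abs, hy1, mul_one, ha]
  · rw [e1, e2, add_sub_cancel_left, add_sub_cancel_left, norm_smul, Real.norm_eq_abs, hz1, mul_one,
      hb]

/-- small angles: the planar norm is the Euclidean norm -/
lemma circle (hP : Abs P) {y0 z0 : E} (hy0 : P y0 = y0) (hz0 : P z0 = 0) (hy1 : ‖y0‖ = 1)
    (hz1 : ‖z0‖ = 1)
    (hsm : ∀ ε : ℝ, 0 < ε → ∃ φ : ℝ, 0 < φ ∧ φ < ε ∧ ∀ ε' : ℝ, 0 < ε' →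
      ∃ (U : E ≃ₗᵢ[ℝ] E) (x : E), hP.rf * U * hP.rf = U⁻¹ ∧ P x = x ∧ ‖x‖ = 1 ∧
        ‖Co U x - Real.cos φ • x‖ ≤ ε')
    {t : ℝ} (ht0 : 0 ≤ t) (ht1 : t ≤ Real.pi / 2) : ‖Real.cos t • y0 + Real.sin t • z0‖ = 1 := by
  have key : ∀ ε : ℝ, 0 < ε → ε < 1 / 10 → |‖Real.cos t • y0 + Real.sin t • z0‖ - 1| ≤ 7 * ε := by
    intro ε hε hε1
    obtain ⟨φ, hφ0, hφ1, hφ⟩ := hsm ε hε
    have hpi := Real.pi_gt_three
    have hsin : 0 < Real.sin φ := Real.sin_pos_of_pos_of_lt_pi hφ0 (by linarith)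
    set n1 := ⌊Real.pi / 2 / φ⌋₊ with hn1
    set n := ⌊t / φ⌋₊ with hn
    have hnn1 : n ≤ n1 := Nat.floor_le_floor (by gcongr)
    obtain ⟨U, x, hU, hPx, hx, hCx⟩ := hφ (ε / 3 ^ n1) (by positivity)
    set κ := ‖Sk U x‖ / Real.sin φ with hκ
    have hκ0 : 0 ≤ κ := by positivity
    -- the planar norm of the rotated points
    have hrot : ∀ m : ℕ, m ≤ n1 →
        |‖Real.cos (m * φ) • y0 + (κ * Real.sin (m * φ)) • z0‖ - 1| ≤ ε := by
      intro m hm
      have h1 := pow_approx U hsin.ne' x m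
      have h2 : 3 ^ m * ‖Co U x - Real.cos φ • x‖ ≤ ε := by
        calc (3 : ℝ) ^ m * ‖Co U x - Real.cos φ • x‖ ≤ 3 ^ n1 * (ε / 3 ^ n1) := by
              apply mul_le_mul _ hCx (norm_nonneg _) (by positivity)
              exact pow_le_pow_right₀ (by norm_num) hm
          _ = ε := by field_simp
      have h3 := abs_norm_sub_norm_le ((U ^ m) x)
        (Real.cos (m * φ) • x + (Real.sin (m * φ) / Real.sin φ) • Sk U x)
      rw [(U ^ m).norm_map, hx] at h3
      have h4 : ‖Real.cos (m * φ) • x + (Real.sin (m * φ) / Real.sin φ) • Sk U x‖ =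
          ‖Real.cos (m * φ) • y0 + (κ * Real.sin (m * φ)) • z0‖ := by
        apply hP.norm_pair _ _ hy0 hz0 hy1 hz1
        · rw [norm_smul, hx, mul_one, Real.norm_eq_abs]
        · rw [norm_smul, Real.norm_eq_abs, abs_mul, abs_of_nonneg hκ0, hκ, abs_div (Real.sin (m * φ)),
            abs_of_pos hsin]
          ring
        · rw [map_smul, hPx]
        · rw [map_smul, hP.P_Sk hU, hPx, sub_self, map_zero, smul_zero]
      rw [h4, abs_sub_comm] at h3
      linarith
    -- Lipschitz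
    have hlip : ∀ a b a' b' : ℝ, |‖a • y0 + b • z0‖ - ‖a' • y0 + b' • z0‖| ≤
        |a - a'| + |b - b'| := by
      intro a b a' b'
      refine (abs_norm_sub_norm_le _ _).trans ?_
      have e : a • y0 + b • z0 - (a' • y0 + b' • z0) = (a - a') • y0 + (b - b') • z0 := by module
      rw [e]
      refine (norm_add_le _ _).trans ?_
      rw [norm_smul, norm_smul, hy1, hz1, mul_one, mul_one, Real.norm_eq_abs, Real.norm_eq_abs]
    -- the multiple near `π / 2`
    have hf1 : (n1 : ℝ) * φ ≤ Real.pi / 2 := by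
      have := Nat.floor_le (a := Real.pi / 2 / φ) (by positivity)
      rwa [le_div_iff₀ hφ0] at this
    have hf2 : Real.pi / 2 < ((n1 : ℝ) + 1) * φ := by
      have := Nat.lt_floor_add_one (Real.pi / 2 / φ)
      rwa [div_lt_iff₀ hφ0] at this
    have hg1 : (n : ℝ) * φ ≤ t := by
      have := Nat.floor_le (a := t / φ) (by positivity)
      rwa [le_div_iff₀ hφ0] at this
    have hg2 : t < ((n : ℝ) + 1) * φ := by
      have := Nat.lt_floor_add_one (t / φ)
      rwa [div_lt_iff₀ hφ0] at this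
    have hcos1 : |Real.cos (n1 * φ) - Real.cos (Real.pi / 2)| ≤ ε := by
      refine (Real.abs_cos_sub_cos_le _ _).trans ?_
      rw [abs_sub_comm, abs_of_nonneg (by linarith)]
      linarith
    have hsin1 : |Real.sin (n1 * φ) - Real.sin (Real.pi / 2)| ≤ ε := by
      refine (Real.abs_sin_sub_sin_le _ _).trans ?_
      rw [abs_sub_comm, abs_of_nonneg (by linarith)]
      linarith
    rw [Real.cos_pi_div_two, sub_zero] at hcos1
    rw [Real.sin_pi_div_two] at hsin1
    have hcos2 : |Real.cos (n * φ) - Real.cos t| ≤ ε := by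
      refine (Real.abs_cos_sub_cos_le _ _).trans ?_
      rw [abs_sub_comm, abs_of_nonneg (by linarith)]
      linarith
    have hsin2 : |Real.sin (n * φ) - Real.sin t| ≤ ε := by
      refine (Real.abs_sin_sub_sin_le _ _).trans ?_
      rw [abs_sub_comm, abs_of_nonneg (by linarith)]
      linarith
    -- `κ` is near one
    have hk1 : |κ * Real.sin (n1 * φ) - 1| ≤ 2 * ε := by
      have h1 := hrot n1 le_rfl
      have h2 := hlip (Real.cos (n1 * φ)) (κ * Real.sin (n1 * φ)) 0 (κ * Real.sin (n1 * φ))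
      rw [sub_self, abs_zero, add_zero, sub_zero, zero_smul, zero_add, norm_smul, hz1, mul_one,
        Real.norm_eq_abs] at h2
      have h3 : 0 ≤ κ * Real.sin (n1 * φ) := by
        have := (abs_le.1 hsin1).1
        exact mul_nonneg hκ0 (by linarith)
      rw [abs_of_nonneg h3] at h2
      rw [abs_le] at h1 h2 ⊢
      constructor <;> linarith [h1.1, h1.2, h2.1, h2.2]
    have hk2 : |κ - 1| ≤ 4 * ε := by
      have h1 := abs_le.1 hk1
      have h2 := abs_le.1 hsin1
      have h3 : κ ≤ 2 := by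
        by_contra hcon
        push Not at hcon
        nlinarith [h1.2, h2.1]
      rw [abs_le]
      constructor
      · have : Real.sin (n1 * φ) ≤ 1 := Real.sin_le_one _
        nlinarith [h1.1]
      · nlinarith [h1.2, h2.1]
    -- conclusion
    have h1 := hrot n hnn1
    have h2 := hlip (Real.cos (n * φ)) (κ * Real.sin (n * φ)) (Real.cos t) (Real.sin t)
    have h3 : |κ * Real.sin (n * φ) - Real.sin t| ≤ 5 * ε := by
      have e : κ * Real.sin (n * φ) - Real.sin t =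
          (κ - 1) * Real.sin (n * φ) + (Real.sin (n * φ) - Real.sin t) := by ring
      rw [e]
      refine (abs_add_le _ _).trans ?_
      rw [abs_mul]
      have h4 : |κ - 1| * |Real.sin (n * φ)| ≤ 4 * ε * 1 :=
        mul_le_mul hk2 (Real.abs_sin_le_one _) (abs_nonneg _) (by positivity)
      linarith
    rw [abs_le] at h1 h2 ⊢
    have h4 := (abs_le.1 hcos2)
    constructor <;> linarith [h1.1, h1.2, h2.1, h2.2]
  by_contra hne
  have hpos : 0 < |‖Real.cos t • y0 + Real.sin t • z0‖ - 1| := abs_pos.2 (sub_ne_zero.2 hne)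
  set d := |‖Real.cos t • y0 + Real.sin t • z0‖ - 1| with hd
  have h1 := key (min (d / 8) (1 / 20)) (by positivity)
    (lt_of_le_of_lt (min_le_right _ _) (by norm_num))
  have h2 := min_le_left (d / 8) (1 / 20)
  linarith

/-- Pythagoras -/
lemma pyth (hP : Abs P) {y0 z0 : E} (hy0 : P y0 = y0) (hz0 : P z0 = 0) (hy1 : ‖y0‖ = 1)
    (hz1 : ‖z0‖ = 1)
    (hc : ∀ t : ℝ, 0 ≤ t → t ≤ Real.pi / 2 → ‖Real.cos t • y0 + Real.sin t • z0‖ = 1) (x : E) :
    ‖x‖ ^ 2 = ‖P x‖ ^ 2 + ‖x - P x‖ ^ 2 := by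
  set a := ‖P x‖ with ha
  set b := ‖x - P x‖ with hb
  have ha0 : 0 ≤ a := norm_nonneg _
  have hb0 : 0 ≤ b := norm_nonneg _
  have hxe : ‖x‖ = ‖a • y0 + b • z0‖ := by
    have := hP.norm_pair (y := P x) (z := x - P x) (hP.idem x)
      (by rw [map_sub, hP.idem, sub_self]) hy0 hz0 hy1 hz1 a b (abs_of_nonneg ha0)
      (abs_of_nonneg hb0)
    rwa [add_sub_cancel] at this
  set r := Real.sqrt (a ^ 2 + b ^ 2) with hr
  have hr2 : r ^ 2 = a ^ 2 + b ^ 2 := Real.sq_sqrt (by positivity)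
  have hr0 : 0 ≤ r := Real.sqrt_nonneg _
  rcases hr0.eq_or_lt with h | h
  · have h1 : a ^ 2 + b ^ 2 = 0 := by rw [← hr2, ← h]; ring
    have h2 : a = 0 := by nlinarith [sq_nonneg a, sq_nonneg b]
    have h3 : b = 0 := by nlinarith [sq_nonneg a, sq_nonneg b]
    rw [hxe, h2, h3]
    simp
  · have hc1 : a / r ≤ 1 := by
      rw [div_le_one h]
      exact Real.le_sqrt_of_sq_le (by nlinarith [sq_nonneg b])
    have hc0 : 0 ≤ a / r := by positivity
    set t := Real.arccos (a / r) with ht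
    have hcos : Real.cos t = a / r := Real.cos_arccos (by linarith) hc1
    have hsin : Real.sin t = b / r := by
      rw [ht, Real.sin_arccos]
      have : 1 - (a / r) ^ 2 = (b / r) ^ 2 := by
        field_simp
        linarith
      rw [this, Real.sqrt_sq (by positivity)]
    have h1 := hc t (Real.arccos_nonneg _) (Real.arccos_le_pi_div_two.2 hc0)
    rw [hcos, hsin] at h1
    have e : a • y0 + b • z0 = r • ((a / r) • y0 + (b / r) • z0) := by
      rw [smul_add, smul_smul, smul_smul, mul_div_cancel₀ _ h.ne', mul_div_cancel₀ _ h.ne']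
    rw [hxe, e, norm_smul, h1, mul_one, Real.norm_of_nonneg hr0, hr2]

end Abs

end Pool.Agent.J6H26.NS
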