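import Pool.Agent.J6H26.CP.Riesz

/-! # Small angles of an isometry -/

set_option autoImplicit false
set_option linter.unusedSectionVars false

namespace Pool.Agent.J6H26.NS

open Pool.Agent.J6H26.CP Filter Topology Pool.H590R3.Ab

variable {E : Type*} [NormedAddCommGroup E] [NormedSpace ℝ E]

lemma Co_apply (U : E ≃ₗᵢ[ℝ] E) (x : E) : Co U x = (1 / 2 : ℝ) • (U x + U⁻¹ x) := rfl

/-- the sine of an isometry -/
noncomputable def Sk (U : E ≃ₗᵢ[ℝ] E) : E →L[ℝ] E := (1 / 2 : ℝ) • (op U - op U⁻¹)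

lemma Sk_apply (U : E ≃ₗᵢ[ℝ] E) (x : E) : Sk U x = (1 / 2 : ℝ) • (U x - U⁻¹ x) := rfl

lemma inv_apply_self' (U : E ≃ₗᵢ[ℝ] E) (x : E) : U⁻¹ (U x) = x := U.symm_apply_apply x

lemma apply_inv_self' (U : E ≃ₗᵢ[ℝ] E) (x : E) : U (U⁻¹ x) = x := U.apply_symm_apply x

lemma Co_norm_le (U : E ≃ₗᵢ[ℝ] E) (x : E) : ‖Co U x‖ ≤ ‖x‖ := by
  rw [Co_apply, norm_smul, Real.norm_of_nonneg (by norm_num)]
  have := norm_add_le (U x) (U⁻¹ x)
  rw [U.norm_map, U⁻¹.norm_map] at this
  linarith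

lemma Sk_norm_le (U : E ≃ₗᵢ[ℝ] E) (x : E) : ‖Sk U x‖ ≤ ‖x‖ := by
  rw [Sk_apply, norm_smul, Real.norm_of_nonneg (by norm_num)]
  have := norm_sub_le (U x) (U⁻¹ x)
  rw [U.norm_map, U⁻¹.norm_map] at this
  linarith

lemma Sk_Sk (U : E ≃ₗᵢ[ℝ] E) (x : E) : Sk U (Sk U x) = Co U (Co U x) - x := by
  simp only [Sk_apply, Co_apply, map_smul, map_sub, map_add, inv_apply_self', apply_inv_self']
  module

lemma Co_Sk (U : E ≃ₗᵢ[ℝ] E) (x : E) : Co U (Sk U x) = Sk U (Co U x) := by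
  simp only [Sk_apply, Co_apply, map_smul, map_sub, map_add, inv_apply_self', apply_inv_self']
  module

/-- powers of `U` on approximate eigenvectors of the cosine -/
lemma pow_approx (U : E ≃ₗᵢ[ℝ] E) {φ : ℝ} (hφ : Real.sin φ ≠ 0) (x : E) (n : ℕ) :
    ‖(U ^ n) x - (Real.cos (n * φ) • x + (Real.sin (n * φ) / Real.sin φ) • Sk U x)‖ ≤
      3 ^ n * ‖Co U x - Real.cos φ • x‖ := by
  set δ := ‖Co U x - Real.cos φ • x‖ with hδ
  have hδ0 : 0 ≤ δ := norm_nonneg _
  set e : ℕ → E := fun n =>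
    (U ^ n) x - (Real.cos (n * φ) • x + (Real.sin (n * φ) / Real.sin φ) • Sk U x) with he
  have hrec : ∀ n : ℕ, e (n + 2) = (2 * Real.cos φ) • e (n + 1) - e n +
      (2 : ℝ) • (U ^ (n + 1)) (Co U x - Real.cos φ • x) := by
    intro n
    have h1 : (U ^ (n + 2)) x = (U ^ (n + 1)) (U x) := by
      rw [pow_succ U (n + 1)]; rfl
    have h2 : (U ^ n) x = (U ^ (n + 1)) (U⁻¹ x) := by
      rw [pow_succ U n]
      show (U ^ n) x = (U ^ n) (U (U⁻¹ x))
      rw [apply_inv_self']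
    have hc : Real.cos (((n + 2 : ℕ) : ℝ) * φ) =
        2 * Real.cos φ * Real.cos (((n + 1 : ℕ) : ℝ) * φ) - Real.cos ((n : ℝ) * φ) := by
      push_cast
      have a1 : ((n : ℝ) + 2) * φ = (n + 1) * φ + φ := by ring
      have a2 : (n : ℝ) * φ = (n + 1) * φ - φ := by ring
      rw [a1, a2, Real.cos_add, Real.cos_sub]
      ring
    have hs : Real.sin (((n + 2 : ℕ) : ℝ) * φ) =
        2 * Real.cos φ * Real.sin (((n + 1 : ℕ) : ℝ) * φ) - Real.sin ((n : ℝ) * φ) := by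
      push_cast
      have a1 : ((n : ℝ) + 2) * φ = (n + 1) * φ + φ := by ring
      have a2 : (n : ℝ) * φ = (n + 1) * φ - φ := by ring
      rw [a1, a2, Real.sin_add, Real.sin_sub]
      ring
    simp only [he]
    rw [hc, hs, h1, h2, Co_apply]
    simp only [map_sub, map_smul, map_add]
    rw [sub_div, mul_div_assoc]
    module
  have h0 : e 0 = 0 := by
    simp only [he]
    simp
  have h1 : e 1 = Co U x - Real.cos φ • x := by
    simp only [he]
    rw [pow_one, Nat.cast_one, one_mul, div_self hφ, one_smul, Co_apply, Sk_apply]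
    module
  have key : ∀ n : ℕ, ‖e n‖ ≤ 3 ^ n * δ ∧ ‖e (n + 1)‖ ≤ 3 ^ (n + 1) * δ := by
    intro n
    induction n with
    | zero =>
      refine ⟨by rw [h0, norm_zero]; positivity, ?_⟩
      rw [zero_add, h1, ← hδ]
      linarith
    | succ n ih =>
      refine ⟨ih.2, ?_⟩
      rw [show n + 1 + 1 = n + 2 by ring, hrec]
      have b1 : ‖(2 * Real.cos φ) • e (n + 1)‖ ≤ 2 * (3 ^ (n + 1) * δ) := by
        rw [norm_smul, Real.norm_eq_abs, abs_mul, abs_of_pos (by norm_num : (0:ℝ) < 2)]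
        have := Real.abs_cos_le_one φ
        have h3 : 0 ≤ ‖e (n + 1)‖ := norm_nonneg _
        nlinarith [ih.2, abs_nonneg (Real.cos φ)]
      have b2 : ‖(2 : ℝ) • (U ^ (n + 1)) (Co U x - Real.cos φ • x)‖ = 2 * δ := by
        rw [norm_smul, Real.norm_of_nonneg (by norm_num), (U ^ (n + 1)).norm_map]
      have b3 := norm_add_le ((2 * Real.cos φ) • e (n + 1) - e n)
        ((2 : ℝ) • (U ^ (n + 1)) (Co U x - Real.cos φ • x))
      have b4 := norm_sub_le ((2 * Real.cos φ) • e (n + 1)) (e n)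
      have b5 : (3 : ℝ) ^ (n + 2) = 9 * 3 ^ n := by ring
      have b6 : (3 : ℝ) ^ (n + 1) = 3 * 3 ^ n := by ring
      have b7 : (1 : ℝ) ≤ 3 ^ n := one_le_pow₀ (by norm_num)
      rw [b5]
      rw [b6] at b1
      have b8 : δ ≤ 3 ^ n * δ := le_mul_of_one_le_left hδ0 b7
      have := ih.1
      linarith
  exact (key n).1

/-- cosines of multiples on approximate eigenvectors of the cosine -/
lemma cos_approx (U : E ≃ₗᵢ[ℝ] E) (φ : ℝ) (x : E) (n : ℕ) :
    ‖(1 / 2 : ℝ) • ((U ^ n) x + (U ^ n)⁻¹ x) - Real.cos (n * φ) • x‖ ≤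
      3 ^ n * ‖Co U x - Real.cos φ • x‖ := by
  set δ := ‖Co U x - Real.cos φ • x‖ with hδ
  have hδ0 : 0 ≤ δ := norm_nonneg _
  set e : ℕ → E := fun n => (1 / 2 : ℝ) • ((U ^ n) x + (U ^ n)⁻¹ x) - Real.cos (n * φ) • x with he
  have hrec : ∀ n : ℕ, e (n + 2) = (2 * Real.cos φ) • e (n + 1) - e n +
      ((U ^ (n + 1)) (Co U x - Real.cos φ • x) + (U ^ (n + 1))⁻¹ (Co U x - Real.cos φ • x)) := by
    intro n
    have h1 : (U ^ (n + 2)) x = (U ^ (n + 1)) (U x) := by
      rw [pow_succ U (n + 1)]; rfl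
    have h2 : (U ^ n) x = (U ^ (n + 1)) (U⁻¹ x) := by
      rw [pow_succ U n]
      show (U ^ n) x = (U ^ n) (U (U⁻¹ x))
      rw [apply_inv_self']
    have h3 : (U ^ (n + 2))⁻¹ x = (U ^ (n + 1))⁻¹ (U⁻¹ x) := by
      rw [pow_succ' U (n + 1), mul_inv_rev]; rfl
    have h4 : (U ^ n)⁻¹ x = (U ^ (n + 1))⁻¹ (U x) := by
      rw [pow_succ' U n, mul_inv_rev]
      show (U ^ n)⁻¹ x = (U ^ n)⁻¹ (U⁻¹ (U x))
      rw [inv_apply_self']
    have hc : Real.cos (((n + 2 : ℕ) : ℝ) * φ) =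
        2 * Real.cos φ * Real.cos (((n + 1 : ℕ) : ℝ) * φ) - Real.cos ((n : ℝ) * φ) := by
      push_cast
      have a1 : ((n : ℝ) + 2) * φ = (n + 1) * φ + φ := by ring
      have a2 : (n : ℝ) * φ = (n + 1) * φ - φ := by ring
      rw [a1, a2, Real.cos_add, Real.cos_sub]
      ring
    simp only [he]
    rw [hc, h1, h2, h3, h4, Co_apply]
    simp only [map_sub, map_smul, map_add]
    module
  have h0 : e 0 = 0 := by
    simp only [he]
    rw [pow_zero, inv_one, Nat.cast_zero, zero_mul, Real.cos_zero]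
    show (1 / 2 : ℝ) • (x + x) - (1 : ℝ) • x = 0
    module
  have h1 : e 1 = Co U x - Real.cos φ • x := by
    simp only [he]
    rw [pow_one, Nat.cast_one, one_mul, Co_apply]
  have key : ∀ n : ℕ, ‖e n‖ ≤ 3 ^ n * δ ∧ ‖e (n + 1)‖ ≤ 3 ^ (n + 1) * δ := by
    intro n
    induction n with
    | zero =>
      refine ⟨by rw [h0, norm_zero]; positivity, ?_⟩
      rw [zero_add, h1, ← hδ]
      linarith
    | succ n ih =>
      refine ⟨ih.2, ?_⟩
      rw [show n + 1 + 1 = n + 2 by ring, hrec]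
      have b1 : ‖(2 * Real.cos φ) • e (n + 1)‖ ≤ 2 * (3 ^ (n + 1) * δ) := by
        rw [norm_smul, Real.norm_eq_abs, abs_mul, abs_of_pos (by norm_num : (0:ℝ) < 2)]
        have := Real.abs_cos_le_one φ
        have h3 : 0 ≤ ‖e (n + 1)‖ := norm_nonneg _
        nlinarith [ih.2, abs_nonneg (Real.cos φ)]
      have b2 : ‖(U ^ (n + 1)) (Co U x - Real.cos φ • x) +
          (U ^ (n + 1))⁻¹ (Co U x - Real.cos φ • x)‖ ≤ 2 * δ := by
        refine (norm_add_le _ _).trans ?_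
        rw [(U ^ (n + 1)).norm_map, (U ^ (n + 1))⁻¹.norm_map, ← hδ]
        linarith
      have b3 := norm_add_le ((2 * Real.cos φ) • e (n + 1) - e n)
        ((U ^ (n + 1)) (Co U x - Real.cos φ • x) + (U ^ (n + 1))⁻¹ (Co U x - Real.cos φ • x))
      have b4 := norm_sub_le ((2 * Real.cos φ) • e (n + 1)) (e n)
      have b5 : (3 : ℝ) ^ (n + 2) = 9 * 3 ^ n := by ring
      have b6 : (3 : ℝ) ^ (n + 1) = 3 * 3 ^ n := by ring
      have b7 : (1 : ℝ) ≤ 3 ^ n := one_le_pow₀ (by norm_num)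
      rw [b5]
      rw [b6] at b1
      have b8 : δ ≤ 3 ^ n * δ := le_mul_of_one_le_left hδ0 b7
      have := ih.1
      linarith
  exact (key n).1

/-- the same for integers -/
lemma cos_approx_int (U : E ≃ₗᵢ[ℝ] E) (φ : ℝ) (x : E) (k : ℤ) :
    ‖(1 / 2 : ℝ) • ((U ^ k) x + (U ^ (-k)) x) - Real.cos (k * φ) • x‖ ≤
      3 ^ k.natAbs * ‖Co U x - Real.cos φ • x‖ := by
  rcases Int.natAbs_eq k with h | h
  · have := cos_approx U φ x k.natAbs
    rw [h]
    simp only [Int.natAbs_natCast, zpow_neg, zpow_natCast, Int.cast_natCast]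
    exact this
  · have := cos_approx U φ x k.natAbs
    rw [h]
    simp only [Int.natAbs_neg, Int.natAbs_natCast, zpow_neg, zpow_natCast, Int.cast_natCast, neg_neg,
      Int.cast_neg, neg_mul, Real.cos_neg]
    rw [add_comm ((U ^ k.natAbs)⁻¹ x)]
    exact this

lemma grow {U : E ≃ₗᵢ[ℝ] E} {v d : E} (h1 : U v - v = d) (h2 : U d = d) : d = 0 := by
  by_contra hne
  have hpos : 0 < ‖d‖ := norm_pos_iff.2 hne
  have h3 : ∀ j : ℕ, (U ^ j) v = v + (j : ℝ) • d := by
    intro j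
    induction j with
    | zero =>
      rw [pow_zero, Nat.cast_zero, zero_smul, add_zero]
      rfl
    | succ j ih =>
      rw [pow_succ']
      show U ((U ^ j) v) = _
      rw [ih, map_add, map_smul, h2]
      have : U v = v + d := by rw [← h1]; abel
      rw [this]
      push_cast
      module
  obtain ⟨j, hj⟩ := exists_nat_gt (2 * ‖v‖ / ‖d‖)
  rw [div_lt_iff₀ hpos] at hj
  have h4 : ‖(j : ℝ) • d‖ ≤ 2 * ‖v‖ := by
    have e : (j : ℝ) • d = (U ^ j) v - v := by rw [h3]; abel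
    rw [e]
    refine (norm_sub_le _ _).trans ?_
    rw [LinearIsometryEquiv.norm_map]
    linarith
  rw [norm_smul, Real.norm_of_nonneg (Nat.cast_nonneg j)] at h4
  linarith

lemma Co_fix {U : E ≃ₗᵢ[ℝ] E} {y : E} (h : Co U y = y) : U y = y := by
  have h1 : U y + U⁻¹ y = (2 : ℝ) • y := by
    have := congrArg (fun z => (2 : ℝ) • z) h
    simp only [Co_apply, smul_smul] at this
    norm_num at this
    exact this
  have h2 : U (U y) + y = (2 : ℝ) • U y := by
    have := congrArg U h1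
    rw [map_add, apply_inv_self', map_smul] at this
    exact this
  have h3 : U (U y - y) = U y - y := by
    rw [map_sub]
    have : U (U y) = (2 : ℝ) • U y - y := by rw [← h2]; abel
    rw [this]
    module
  exact sub_eq_zero.1 (grow rfl h3)

variable [CompleteSpace E]

lemma Fop_apply (U : E ≃ₗᵢ[ℝ] E) {a : ℤ → ℝ} (ha : Summable fun k => |a k|) (x : E) :
    HasSum (fun k => a k • (U ^ k) x) (Fop U a x) := by
  have h2 : HasSum (fun k => a k • op (U ^ k)) (Fop U a) := (summable_term U ha).hasSum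
  exact h2.mapL (ContinuousLinearMap.apply ℝ E x)

/-- the functional calculus on approximate eigenvectors -/
lemma Fop_approx (U : E ≃ₗᵢ[ℝ] E) {x : ℕ → E} (hx : ∀ m, ‖x m‖ = 1) {φ : ℝ}
    (h : Tendsto (fun m => ‖Co U (x m) - Real.cos φ • x m‖) atTop (𝓝 0)) {a : ℤ → ℝ}
    (ha : Summable fun k => |a k|) (hev : ∀ k, a (-k) = a k) {s : ℝ}
    (hs : HasSum (fun k : ℤ => a k * Real.cos (k * φ)) s) :
    Tendsto (fun m => Fop U a (x m) - s • x m) atTop (𝓝 0) := by
  have h1 : ∀ m, Fop U a (x m) - s • x m =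
      ∑' k : ℤ, a k • ((1 / 2 : ℝ) • ((U ^ k) (x m) + (U ^ (-k)) (x m)) -
        Real.cos (k * φ) • x m) := by
    intro m
    have h2 := Fop_apply U ha (x m)
    have h3 : HasSum (fun k => a k • (U ^ (-k)) (x m)) (Fop U a (x m)) := by
      have h4 := (Equiv.neg ℤ).hasSum_iff.2 h2
      refine h4.congr_fun fun k => ?_
      show a k • (U ^ (-k)) (x m) = a (-k) • (U ^ (-k)) (x m)
      rw [hev]
    have h5 : HasSum (fun k : ℤ => (a k * Real.cos (k * φ)) • x m) (s • x m) := hs.smul_const _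
    have h6 := (((h2.add h3).const_smul (1 / 2 : ℝ))).sub h5
    have e : (1 / 2 : ℝ) • (Fop U a (x m) + Fop U a (x m)) = Fop U a (x m) := by module
    rw [e] at h6
    rw [← h6.tsum_eq]
    refine tsum_congr fun k => ?_
    module
  have h2 : Tendsto (fun m => ∑' k : ℤ, a k • ((1 / 2 : ℝ) • ((U ^ k) (x m) + (U ^ (-k)) (x m)) -
      Real.cos (k * φ) • x m)) atTop (𝓝 (∑' _k : ℤ, (0 : E))) := by
    refine tendsto_tsum_of_dominated_convergence (bound := fun k => |a k| * 2)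
      (ha.mul_right 2) (fun k => ?_) (Filter.Eventually.of_forall fun n k => ?_)
    · have h3 : Tendsto (fun m => |a k| * (3 ^ k.natAbs * ‖Co U (x m) - Real.cos φ • x m‖)) atTop
          (𝓝 0) := by
        have := (h.const_mul ((3 : ℝ) ^ k.natAbs)).const_mul |a k|
        rw [mul_zero, mul_zero] at this
        exact this
      refine squeeze_zero_norm (fun m => ?_) h3
      rw [norm_smul, Real.norm_eq_abs]
      have := cos_approx_int U φ (x m) k
      gcongr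
    · rw [norm_smul, Real.norm_eq_abs]
      have : ‖(1 / 2 : ℝ) • ((U ^ k) (x n) + (U ^ (-k)) (x n)) - Real.cos (k * φ) • x n‖ ≤ 2 := by
        refine (norm_sub_le _ _).trans ?_
        have b1 := norm_add_le ((U ^ k) (x n)) ((U ^ (-k)) (x n))
        rw [(U ^ k).norm_map, (U ^ (-k)).norm_map, hx] at b1
        rw [norm_smul, norm_smul, Real.norm_of_nonneg (by norm_num : (0:ℝ) ≤ 1 / 2), hx, mul_one,
          Real.norm_eq_abs]
        have := Real.abs_cos_le_one (k * φ)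
        linarith
      gcongr
  rw [tsum_zero] at h2
  exact h2.congr fun m => (h1 m).symm

/-- the windows vanish asymptotically on almost fixed vectors, with variable isometries -/
lemma Fop_tendsto' (T : ℕ → E ≃ₗᵢ[ℝ] E) {a : ℤ → ℝ} (ha : Summable fun k => |a k|) (h0 : HasSum a 0)
    {u : ℕ → E} (hu : ∀ n, ‖u n‖ = 1) (hl : Tendsto (fun n => ‖T n (u n) - u n‖) atTop (𝓝 0)) :
    Tendsto (fun n => Fop (T n) a (u n)) atTop (𝓝 0) := by
  have h1 : ∀ n, Fop (T n) a (u n) = ∑' k : ℤ, a k • ((T n ^ k) (u n) - u n) := by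
    intro n
    have h3 := Fop_apply (T n) ha (u n)
    have h4 : HasSum (fun k => a k • u n) ((0 : ℝ) • u n) := h0.smul_const _
    have h5 := h3.sub h4
    rw [zero_smul, sub_zero] at h5
    rw [← h5.tsum_eq]
    refine tsum_congr fun k => ?_
    rw [smul_sub]
  have h2 : Tendsto (fun n => ∑' k : ℤ, a k • ((T n ^ k) (u n) - u n)) atTop
      (𝓝 (∑' _k : ℤ, (0 : E))) := by
    refine tendsto_tsum_of_dominated_convergence (bound := fun k => |a k| * 2)
      (ha.mul_right 2) (fun k => ?_) (Filter.Eventually.of_forall fun n k => ?_)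
    · have h3 : Tendsto (fun n => |a k| * (|(k : ℝ)| * ‖T n (u n) - u n‖)) atTop (𝓝 0) := by
        have := (hl.const_mul |(k : ℝ)|).const_mul |a k|
        rw [mul_zero, mul_zero] at this
        exact this
      refine squeeze_zero_norm (fun n => ?_) h3
      rw [norm_smul, Real.norm_eq_abs]
      have := pow_near (T n) (u n) k
      gcongr
    · rw [norm_smul, Real.norm_eq_abs]
      have : ‖(T n ^ k) (u n) - u n‖ ≤ 2 := by
        refine (norm_sub_le _ _).trans ?_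
        rw [(T n ^ k).norm_map, hu]; norm_num
      gcongr
  rw [tsum_zero] at h2
  exact h2.congr fun n => (h1 n).symm

/-- uniform version -/
lemma win_small {a : ℤ → ℝ} (ha : Summable fun k => |a k|) (h0 : HasSum a 0) :
    ∃ κ : ℝ, 0 < κ ∧ ∀ (U : E ≃ₗᵢ[ℝ] E) (w : E), w ≠ 0 → ‖U w - w‖ ≤ κ * ‖w‖ →
      ‖Fop U a w‖ ≤ ‖w‖ / 2 := by
  by_contra hcon
  push Not at hcon
  choose U w hw h1 h2 using fun n : ℕ => hcon (1 / ((n : ℝ) + 1)) (by positivity)
  let u : ℕ → E := fun n => ‖w n‖⁻¹ • w n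
  have hpos : ∀ n, 0 < ‖w n‖ := fun n => norm_pos_iff.2 (hw n)
  have hu : ∀ n, ‖u n‖ = 1 := fun n => by
    show ‖‖w n‖⁻¹ • w n‖ = 1
    rw [norm_smul, norm_inv, norm_norm, inv_mul_cancel₀ (hpos n).ne']
  have hu2 : ∀ n, ‖U n (u n) - u n‖ ≤ 1 / ((n : ℝ) + 1) := by
    intro n
    show ‖U n (‖w n‖⁻¹ • w n) - ‖w n‖⁻¹ • w n‖ ≤ _
    rw [map_smul, ← smul_sub, norm_smul, norm_inv, norm_norm, inv_mul_le_iff₀ (hpos n), mul_comm]
    exact h1 n
  have hl : Tendsto (fun n => ‖U n (u n) - u n‖) atTop (𝓝 0) :=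
    squeeze_zero (fun _ => norm_nonneg _) hu2 tendsto_one_div_add_atTop_nhds_zero_nat
  have h3 := (Fop_tendsto' U ha h0 hu hl).norm
  rw [norm_zero] at h3
  obtain ⟨n, hn⟩ := (h3.eventually (gt_mem_nhds (by norm_num : (0:ℝ) < 1 / 2))).exists
  have h4 : ‖Fop (U n) a (u n)‖ = ‖w n‖⁻¹ * ‖Fop (U n) a (w n)‖ := by
    show ‖Fop (U n) a (‖w n‖⁻¹ • w n)‖ = _
    rw [map_smul, norm_smul, norm_inv, norm_norm]
  rw [h4, inv_mul_lt_iff₀ (hpos n)] at hn
  have := h2 n
  linarith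

end Pool.Agent.J6H26.NS
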