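import Pool.Agent.J6H26.NS.Abs
import Pool.Agent.J6H26.LP.Com

/-! # Separable transitive spaces have small angles, and the conclusion -/

set_option autoImplicit false
set_option linter.unusedSectionVars false

namespace Pool.Agent.J6H26.NS

open Pool.Agent.J6H26.CP Filter Topology

variable {E : Type*} [NormedAddCommGroup E] [NormedSpace ℝ E]

/-- In a separable normed space, if the vectors which are fixed by a member of a family of projections
`Q ≠ 1` as above are not a meagre set, then two members of the family form a small angle. -/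
theorem baire_abs [TopologicalSpace.SeparableSpace E] (F : Set (E →L[ℝ] E))
    (hF : ∀ Q ∈ F, Abs Q ∧ Q ≠ 1) (hk : ¬ IsMeagre {x : E | ∃ Q ∈ F, Q x = x}) {κ : ℝ}
    (hκ : 0 < κ) :
    ∃ Q0 ∈ F, ∃ Q1 ∈ F, ∃ (h0 : Abs Q0) (h1 : Abs Q1) (z w : E),
      h1.rf (h0.rf z) - z = w ∧ w ≠ 0 ∧ ‖h1.rf (h0.rf w) - w‖ ≤ κ * ‖w‖ := by
  set d := TopologicalSpace.denseSeq E with hd
  have hdd : DenseRange d := TopologicalSpace.denseRange_denseSeq E
  set c' := min (κ / 10) (1 / 10) with hc'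
  have hc'0 : 0 < c' := by positivity
  have hc'1 : c' ≤ κ / 10 := min_le_left _ _
  have hc'2 : c' ≤ 1 / 10 := min_le_right _ _
  let A : ℕ × ℕ → Set E := fun q =>
    {x | d q.1 ≠ d q.2 ∧ ∃ Q ∈ F, Q x = x ∧ ‖Q (d q.1) - d q.2‖ < c' / 5 * ‖d q.1 - d q.2‖}
  have hcov : {x : E | ∃ Q ∈ F, Q x = x} ⊆ ⋃ q, closure (A q) := by
    rintro x ⟨Q, hQ, hQx⟩
    obtain ⟨k, hkk⟩ : ∃ k, Q (d k) ≠ d k := by
      by_contra hcon
      push Not at hcon
      apply (hF Q hQ).2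
      ext z
      have hcl : IsClosed {z : E | Q z = z} := isClosed_eq (by fun_prop) (by fun_prop)
      exact (closure_minimal (by rintro _ ⟨k, rfl⟩; exact hcon k) hcl) (hdd z)
    have hpos : 0 < ‖d k - Q (d k)‖ := norm_pos_iff.2 (sub_ne_zero.2 (Ne.symm hkk))
    obtain ⟨j, hj⟩ := hdd.exists_dist_lt (Q (d k))
      (ε := c' / 10 * ‖d k - Q (d k)‖) (by positivity)
    rw [dist_eq_norm] at hj
    have h1 : ‖d k - Q (d k)‖ ≤ ‖d k - d j‖ + ‖Q (d k) - d j‖ := by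
      have : d k - Q (d k) = (d k - d j) - (Q (d k) - d j) := by abel
      rw [this]
      exact norm_sub_le _ _
    have h2 : ‖d k - Q (d k)‖ ≤ 2 * ‖d k - d j‖ := by
      have : c' / 10 * ‖d k - Q (d k)‖ ≤ 1 / 2 * ‖d k - Q (d k)‖ :=
        mul_le_mul_of_nonneg_right (by linarith) hpos.le
      linarith
    refine Set.mem_iUnion.2 ⟨(k, j), subset_closure ⟨?_, Q, hQ, hQx, ?_⟩⟩
    · intro h
      have h3 : d k = d j := h
      rw [h3, sub_self, norm_zero, mul_zero, ← h3] at h2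
      linarith
    · refine hj.trans_le ?_
      calc c' / 10 * ‖d k - Q (d k)‖ ≤ c' / 10 * (2 * ‖d k - d j‖) :=
            mul_le_mul_of_nonneg_left h2 (by positivity)
        _ = c' / 5 * ‖d k - d j‖ := by ring
  obtain ⟨⟨k, j⟩, hint⟩ := LP.exists_int hk hcov
  obtain ⟨x0, hx0⟩ := hint
  obtain ⟨r, hr, hball⟩ := Metric.isOpen_iff.1 isOpen_interior x0 hx0
  have hsub : Metric.ball x0 r ⊆ closure (A (k, j)) := hball.trans interior_subset
  -- approximately fixed vectors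
  have hfix : ∀ x ∈ Metric.ball x0 r, ∀ ε : ℝ, 0 < ε → d k ≠ d j ∧ ∃ Q ∈ F, ‖Q x - x‖ ≤ 2 * ε ∧
      ‖Q (d k) - d j‖ < c' / 5 * ‖d k - d j‖ := by
    intro x hx ε hε
    obtain ⟨x', ⟨h0, Q, hQ, hQx', h1⟩, hdist⟩ := Metric.mem_closure_iff.1 (hsub hx) ε hε
    refine ⟨h0, Q, hQ, ?_, h1⟩
    rw [dist_eq_norm] at hdist
    have h2 : Q x - x = Q (x - x') - (x - x') := by
      rw [map_sub, hQx']
      abel
    rw [h2]
    refine (norm_sub_le _ _).trans ?_
    have := (hF Q hQ).1.norm_le (x - x')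
    linarith
  have hne : d k ≠ d j := (hfix x0 (Metric.mem_ball_self hr) 1 one_pos).1
  set D := ‖d k - d j‖ with hD
  have hD0 : 0 < D := norm_pos_iff.2 (sub_ne_zero.2 hne)
  set s := r / (4 * D) with hs
  have hs0 : 0 < s := by positivity
  set ε := c' * s * D / 4 with hε
  have hε0 : 0 < ε := by positivity
  obtain ⟨-, Q0, hQ0, h0a, h0b⟩ := hfix x0 (Metric.mem_ball_self hr) ε hε0
  obtain ⟨hA0, -⟩ := hF Q0 hQ0
  set b := d k - Q0 (d k) with hb
  have hbup : ‖b‖ ≤ 2 * D := by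
    have e : b = (d k - d j) - (Q0 (d k) - d j) := by rw [hb]; abel
    rw [e]
    refine (norm_sub_le _ _).trans ?_
    have : c' / 5 * D ≤ 1 * D := mul_le_mul_of_nonneg_right (by linarith) hD0.le
    linarith
  have hblow : 9 / 10 * D ≤ ‖b‖ := by
    have h1 : D ≤ ‖b‖ + ‖Q0 (d k) - d j‖ := by
      have e : d k - d j = b + (Q0 (d k) - d j) := by rw [hb]; abel
      rw [hD, e]
      exact norm_add_le _ _
    have : c' / 5 * D ≤ 1 / 10 * D := mul_le_mul_of_nonneg_right (by linarith) hD0.le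
    linarith
  have hx1 : x0 + s • b ∈ Metric.ball x0 r := by
    rw [Metric.mem_ball, dist_eq_norm, add_sub_cancel_left, norm_smul, Real.norm_eq_abs,
      abs_of_pos hs0]
    calc s * ‖b‖ ≤ s * (2 * D) := mul_le_mul_of_nonneg_left hbup hs0.le
      _ = r / 2 := by rw [hs]; field_simp; norm_num
      _ < r := by linarith
  obtain ⟨-, Q1, hQ1, h1a, h1b⟩ := hfix _ hx1 ε hε0
  obtain ⟨hA1, -⟩ := hF Q1 hQ1
  have hQ0b : Q0 b = 0 := by rw [hb, map_sub, hA0.idem, sub_self]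
  have hQ1b : ‖Q1 b‖ ≤ c' * D := by
    have e : Q1 b = (Q1 (d k) - d j) - (Q1 (d j - Q1 (d k)) + (Q1 (d k) - d j)) -
        Q1 (Q0 (d k) - d j) := by
      rw [hb]
      simp only [map_sub, hA1.idem]
      abel
    rw [e]
    have n1 := hA1.norm_le (d j - Q1 (d k))
    have n2 := hA1.norm_le (Q0 (d k) - d j)
    rw [norm_sub_rev (d j)] at n1
    have n3 := norm_sub_le ((Q1 (d k) - d j) - (Q1 (d j - Q1 (d k)) + (Q1 (d k) - d j)))
      (Q1 (Q0 (d k) - d j))
    have n4 := norm_sub_le (Q1 (d k) - d j) (Q1 (d j - Q1 (d k)) + (Q1 (d k) - d j))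
    have n5 := norm_add_le (Q1 (d j - Q1 (d k))) (Q1 (d k) - d j)
    have : 0 < c' * D := by positivity
    linarith
  -- the vectors
  set e0 := (2 : ℝ) • (Q0 x0 - x0) with he0
  have he0n : ‖e0‖ ≤ 4 * ε := by
    rw [he0, norm_smul, Real.norm_of_nonneg (by norm_num)]
    linarith
  have hr0 : hA0.rf x0 = x0 + e0 := by
    rw [Abs.rf_apply, he0]
    module
  set e1 := (2 : ℝ) • (Q1 (x0 + s • b) - (x0 + s • b)) with he1
  have he1n : ‖e1‖ ≤ 4 * ε := by
    rw [he1, norm_smul, Real.norm_of_nonneg (by norm_num)]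
    linarith
  have hr1 : hA1.rf x0 = x0 + (2 * s) • b - (2 * s) • Q1 b + e1 := by
    rw [Abs.rf_apply, he1, map_add, map_smul]
    module
  set w := hA1.rf (hA0.rf x0) - x0 with hw
  set e2 := e1 + hA1.rf e0 with he2
  have he2n : ‖e2‖ ≤ 2 * c' * s * D := by
    rw [he2]
    refine (norm_add_le _ _).trans ?_
    rw [hA1.rf.norm_map]
    rw [hε] at he0n he1n
    linarith
  have hwe : w = (2 * s) • (b - Q1 b) + e2 := by
    rw [hw, hr0, map_add, hr1, he2]
    module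
  have hUb : hA1.rf (hA0.rf b) - b = -((2 : ℝ) • Q1 b) := by
    rw [Abs.rf_apply hA0, hQ0b, smul_zero, zero_sub, Abs.rf_apply, map_neg]
    module
  have hUw : hA1.rf (hA0.rf w) - w = (2 * s) • (-((2 : ℝ) • Q1 b)) -
      (2 * s) • (hA1.rf (hA0.rf (Q1 b)) - Q1 b) + (hA1.rf (hA0.rf e2) - e2) := by
    rw [← hUb, hwe]
    simp only [map_add, map_sub, map_smul]
    module
  have hwn : 7 / 5 * (s * D) ≤ ‖w‖ := by
    have h1 : ‖(2 * s) • (b - Q1 b)‖ ≤ ‖w‖ + ‖e2‖ := by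
      have e : (2 * s) • (b - Q1 b) = w - e2 := by rw [hwe]; abel
      rw [e]
      exact norm_sub_le _ _
    rw [norm_smul, Real.norm_of_nonneg (by positivity)] at h1
    have h2 : ‖b‖ ≤ ‖b - Q1 b‖ + ‖Q1 b‖ := by
      calc ‖b‖ = ‖(b - Q1 b) + Q1 b‖ := by rw [sub_add_cancel]
        _ ≤ _ := norm_add_le _ _
    have h3 : 2 * s * (9 / 10 * D - c' * D) ≤ 2 * s * ‖b - Q1 b‖ :=
      mul_le_mul_of_nonneg_left (by linarith) (by positivity)
    have h4 : c' * (s * D) ≤ 1 / 10 * (s * D) :=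
      mul_le_mul_of_nonneg_right hc'2 (by positivity)
    linarith
  have hwn2 : ‖hA1.rf (hA0.rf w) - w‖ ≤ 12 * c' * (s * D) := by
    rw [hUw]
    refine (norm_add_le _ _).trans ?_
    have q1 : s * ‖Q1 b‖ ≤ s * (c' * D) := mul_le_mul_of_nonneg_left hQ1b hs0.le
    have t1 := norm_sub_le ((2 * s) • (-((2 : ℝ) • Q1 b)))
      ((2 * s) • (hA1.rf (hA0.rf (Q1 b)) - Q1 b))
    have t2 : ‖(2 * s) • (-((2 : ℝ) • Q1 b))‖ ≤ 4 * s * (c' * D) := by
      rw [norm_smul, norm_neg, norm_smul, Real.norm_of_nonneg (by positivity),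
        Real.norm_of_nonneg (by norm_num)]
      linarith
    have t3 : ‖(2 * s) • (hA1.rf (hA0.rf (Q1 b)) - Q1 b)‖ ≤ 4 * s * (c' * D) := by
      rw [norm_smul, Real.norm_of_nonneg (by positivity)]
      have := norm_sub_le (hA1.rf (hA0.rf (Q1 b))) (Q1 b)
      rw [hA1.rf.norm_map, hA0.rf.norm_map] at this
      have q2 : (2 * s) * ‖hA1.rf (hA0.rf (Q1 b)) - Q1 b‖ ≤ (2 * s) * (‖Q1 b‖ + ‖Q1 b‖) :=
        mul_le_mul_of_nonneg_left this (by positivity)
      linarith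
    have t4 : ‖hA1.rf (hA0.rf e2) - e2‖ ≤ 2 * (2 * c' * s * D) := by
      have := norm_sub_le (hA1.rf (hA0.rf e2)) e2
      rw [hA1.rf.norm_map, hA0.rf.norm_map] at this
      linarith
    linarith
  have hsD : 0 < s * D := by positivity
  refine ⟨Q0, hQ0, Q1, hQ1, hA0, hA1, x0, w, rfl, ?_, ?_⟩
  · intro h
    rw [h, norm_zero] at hwn
    linarith
  · refine hwn2.trans ?_
    have h1 : 12 * c' * (s * D) ≤ 12 * (κ / 10) * (s * D) :=
      mul_le_mul_of_nonneg_right (by linarith) hsD.le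
    have h2 : κ * (7 / 5 * (s * D)) ≤ κ * ‖w‖ := mul_le_mul_of_nonneg_left hwn hκ.le
    nlinarith

end Pool.Agent.J6H26.NS
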