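import Pool.Agent.J6H26.NS.Ang

/-! # Existence of approximate eigenvectors with a small angle -/

set_option autoImplicit false
set_option linter.unusedSectionVars false

namespace Pool.Agent.J6H26.NS

open Pool.Agent.J6H26.CP Filter Topology Pool.H590R3.Ab

theorem parti : Parti_stmt :=
  Pool.Agent.H984R3.AbPartiOf.partiOf (prod series)
    (Pool.Agent.H663R4.AB.dec2 Pool.Agent.H343R3.Ab.dec1)

variable {E : Type*} [NormedAddCommGroup E] [NormedSpace ℝ E] [CompleteSpace E]

lemma Fop_commute (U : E ≃ₗᵢ[ℝ] E) {a b : ℤ → ℝ} (ha : Summable fun k => |a k|)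
    (hb : Summable fun k => |b k|) : Fop U a * Fop U b = Fop U b * Fop U a := by
  apply Fop_comm_of U hb
  exact (Fop_comm_of U ha (op U) rfl).symm

lemma Co_commute (U : E ≃ₗᵢ[ℝ] E) {a : ℤ → ℝ} (ha : Summable fun k => |a k|) :
    Co U * Fop U a = Fop U a * Co U := by
  apply Fop_comm_of U ha
  unfold Co
  rw [smul_mul_assoc, mul_smul_comm, add_mul, mul_add, op_inv_mul, op_mul_inv]

/-- every nonzero vector can be moved by the functional calculus to an approximate eigenvector of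
the cosine -/
lemma loc (U : E ≃ₗᵢ[ℝ] E) {y : E} (hy : y ≠ 0) {ε : ℝ} (hε : 0 < ε) :
    ∃ (h : ℤ → ℝ) (c : ℝ), (Summable fun k => |h k|) ∧ Fop U h y ≠ 0 ∧
      ‖Co U (Fop U h y) - c • Fop U h y‖ ≤ ε * ‖Fop U h y‖ := by
  obtain ⟨M, a, c, ha, hsum, hdis, hsm⟩ := parti (ε / 3) (by positivity)
  have hone : ∑ j ∈ Finset.range (M + 1), Fop U (a j) = 1 := by
    have h1 : ∀ k : ℤ, (∑ j ∈ Finset.range (M + 1), a j k) • op (U ^ k) =
        (if k = 0 then (1 : ℝ) else 0) • op (U ^ k) := fun k => by rw [hsum]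
    have h2 : HasSum (fun k : ℤ => ∑ j ∈ Finset.range (M + 1), a j k • op (U ^ k))
        (∑ j ∈ Finset.range (M + 1), Fop U (a j)) :=
      hasSum_sum fun j _ => (summable_term U (ha j)).hasSum
    rw [← h2.tsum_eq, ← Fop_delta U]
    unfold Fop
    refine tsum_congr fun k => ?_
    rw [← h1 k, Finset.sum_smul]
  obtain ⟨j, hj, hjy⟩ : ∃ j ∈ Finset.range (M + 1), Fop U (a j) y ≠ 0 := by
    by_contra hcon
    push Not at hcon
    apply hy
    have := congrArg (fun B : E →L[ℝ] E => B y) hone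
    simp only [sum_apply, one_apply_eq_self] at this
    rw [← this]
    exact Finset.sum_eq_zero hcon
  refine ⟨a j, c (j - 1), ha j, hjy, ?_⟩
  set z := Fop U (a j) y with hz
  have hzero : ∀ i, i + 2 ≤ j ∨ j + 2 ≤ i → Fop U (a i) z = 0 := by
    intro i hi
    have h0 : Fop U (a i) * Fop U (a j) = 0 := by
      rcases hi with hi | hi
      · rw [Fop_mul U (ha i) (ha j)]
        have : (fun m => ∑' k : ℤ, a i k * a j (m - k)) = fun _ => (0 : ℝ) := by
          funext m
          exact hdis i j hi m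
        rw [this]
        unfold Fop
        simp
      · rw [Fop_commute U (ha i) (ha j), Fop_mul U (ha j) (ha i)]
        have : (fun m => ∑' k : ℤ, a j k * a i (m - k)) = fun _ => (0 : ℝ) := by
          funext m
          exact hdis j i hi m
        rw [this]
        unfold Fop
        simp
    have := congrArg (fun B : E →L[ℝ] E => B y) h0
    exact this
  have hC : ∀ i, j - 1 ≤ i → i ≤ j - 1 + 2 → ‖(Co U - c (j - 1) • 1) (Fop U (a i) z)‖ ≤
      ε / 3 * ‖z‖ := by
    intro i h1 h2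
    have e := Co_mul_Fop U (ha i) (c (j - 1))
    have e2 := congrArg (fun B : E →L[ℝ] E => B z) e
    have e3 : (Co U - c (j - 1) • 1) (Fop U (a i) z) =
      Fop U (fun k => (a i (k - 1) + a i (k + 1)) / 2 - c (j - 1) * a i k) z := e2
    rw [e3]
    refine (ContinuousLinearMap.le_opNorm _ _).trans ?_
    refine mul_le_mul_of_nonneg_right ?_ (norm_nonneg _)
    refine (Fop_norm_le U ?_).trans (hsm (j - 1) i h1 h2)
    have s1 : Summable fun k : ℤ => |a i (k - 1)| := summable_shift (ha i) (-1)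
    have s2 : Summable fun k : ℤ => |a i (k + 1)| := summable_shift (ha i) 1
    refine Summable.of_nonneg_of_le (fun _ => abs_nonneg _) (fun k => ?_)
      ((s1.add s2).add ((ha i).mul_left |c (j - 1)|))
    refine (abs_sub _ _).trans ?_
    rw [abs_div, abs_of_pos (by norm_num : (0:ℝ) < 2), abs_mul]
    have := abs_add_le (a i (k - 1)) (a i (k + 1))
    have h3 := abs_nonneg (a i (k - 1) + a i (k + 1))
    linarith
  have hz1 : z = ∑ i ∈ Finset.range (M + 1), Fop U (a i) z := by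
    have := congrArg (fun B : E →L[ℝ] E => B z) hone
    simp only [sum_apply, one_apply_eq_self] at this
    exact this.symm
  have hz2 : (Co U - c (j - 1) • 1) z =
      ∑ i ∈ Finset.range (M + 1), (Co U - c (j - 1) • 1) (Fop U (a i) z) := by
    conv_lhs => rw [hz1]
    rw [map_sum]
  have hz3 : Co U z - c (j - 1) • z = (Co U - c (j - 1) • 1) z := rfl
  rw [hz3, hz2]
  -- only three terms survive
  have hsub : ∑ i ∈ Finset.range (M + 1), (Co U - c (j - 1) • 1) (Fop U (a i) z) =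
      ∑ i ∈ (Finset.range (M + 1)).filter (fun i => j ≤ i + 1 ∧ i ≤ j + 1),
        (Co U - c (j - 1) • 1) (Fop U (a i) z) := by
    symm
    apply Finset.sum_subset (Finset.filter_subset _ _)
    intro i hi hni
    rw [Finset.mem_filter, not_and] at hni
    have hni' := hni hi
    rw [hzero i (by omega), map_zero]
  rw [hsub]
  refine (norm_sum_le _ _).trans ?_
  have hcard : ((Finset.range (M + 1)).filter (fun i => j ≤ i + 1 ∧ i ≤ j + 1)).card ≤ 3 := by
    have hss : (Finset.range (M + 1)).filter (fun i => j ≤ i + 1 ∧ i ≤ j + 1) ⊆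
        {j - 1, j, j + 1} := by
      intro i hi
      rw [Finset.mem_filter] at hi
      simp only [Finset.mem_insert, Finset.mem_singleton]
      omega
    exact (Finset.card_le_card hss).trans Finset.card_le_three
  calc ∑ i ∈ (Finset.range (M + 1)).filter (fun i => j ≤ i + 1 ∧ i ≤ j + 1),
        ‖(Co U - c (j - 1) • 1) (Fop U (a i) z)‖ ≤
      ∑ _i ∈ (Finset.range (M + 1)).filter (fun i => j ≤ i + 1 ∧ i ≤ j + 1), ε / 3 * ‖z‖ := by
        refine Finset.sum_le_sum fun i hi => ?_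
        rw [Finset.mem_filter] at hi
        exact hC i (by omega) (by omega)
    _ = ((Finset.range (M + 1)).filter (fun i => j ≤ i + 1 ∧ i ≤ j + 1)).card * (ε / 3 * ‖z‖) := by
        rw [Finset.sum_const, nsmul_eq_mul]
    _ ≤ 3 * (ε / 3 * ‖z‖) := by
        have h3 : ((((Finset.range (M + 1)).filter (fun i => j ≤ i + 1 ∧ i ≤ j + 1)).card : ℕ) : ℝ)
            ≤ 3 := by exact_mod_cast hcard
        have := norm_nonneg z
        exact mul_le_mul_of_nonneg_right h3 (by positivity)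
    _ = ε * ‖z‖ := by ring

/-- **Small angles**: if `w = U z - z` is almost fixed by `U` then there is a small angle. -/
theorem small_angle {δ : ℝ} (hδ : 0 < δ) (hδ1 : 2 * δ ≤ 1) : ∃ κ : ℝ, 0 < κ ∧
    ∀ (U : E ≃ₗᵢ[ℝ] E) (z w : E), U z - z = w → w ≠ 0 → ‖U w - w‖ ≤ κ * ‖w‖ →
      ∃ φ : ℝ, 0 < φ ∧ φ < Real.pi ∧ 1 - Real.cos φ < 2 * δ ∧
        ∀ ε : ℝ, 0 < ε → ∃ x : E, ‖x‖ = 1 ∧ ‖Co U x - Real.cos φ • x‖ ≤ ε := by
  have hδ' : δ ≤ 1 := by linarith
  have sp := pp_summable hδ hδ'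
  obtain ⟨κ, hκ, hwin⟩ := win_small (E := E) (aa_summable hδ hδ') (aa_sum hδ hδ')
  refine ⟨κ, hκ, fun U z w hzw hw hUw => ?_⟩
  have h1 := hwin U w hw hUw
  rw [Fop_aa U hδ hδ'] at h1
  set F := Fop U (pp δ) with hF
  have hy0 : F w ≠ 0 := by
    intro h
    have e : (1 - F) w = w - F w := rfl
    rw [e, h, sub_zero] at h1
    have := norm_pos_iff.2 hw
    linarith
  set y0 := F w with hy0d
  have hFU : ∀ v, F (U v) = U (F v) := by
    intro v
    have := Fop_comm_of U sp (op U) rfl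
    have h2 := congrArg (fun B : E →L[ℝ] E => B v) this
    exact h2.symm
  have hy0r : U (F z) - F z = y0 := by
    rw [hy0d, ← hzw, map_sub, hFU]
  have hCy0 : Co U y0 ≠ y0 := fun h => hy0 (grow hy0r (Co_fix h))
  -- the window off zero
  obtain ⟨δ', hδ'0, hδ'1, hy⟩ : ∃ δ' : ℝ, 0 < δ' ∧ δ' ≤ 1 ∧ Fop U (aa δ') y0 ≠ 0 := by
    by_contra hcon
    push Not at hcon
    apply hCy0
    rw [← sub_eq_zero, ← norm_le_zero_iff]
    have hpos : 0 < ‖y0‖ := norm_pos_iff.2 hy0
    refine le_of_forall_pos_le_add fun ε hε => ?_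
    obtain ⟨δ', h0, h1, h2⟩ := Co_small U (div_pos hε hpos)
    have h3 := hcon δ' h0 h1
    rw [Fop_aa U h0 h1] at h3
    have h4 : Fop U (pp δ') y0 = y0 := (sub_eq_zero.1 (show y0 - Fop U (pp δ') y0 = 0 from h3)).symm
    have h5 : Co U y0 - y0 = ((Co U - 1) * Fop U (pp δ')) y0 := by
      show _ = (Co U - 1) (Fop U (pp δ') y0)
      rw [h4]
      rfl
    rw [h5]
    calc ‖((Co U - 1) * Fop U (pp δ')) y0‖ ≤ ‖(Co U - 1) * Fop U (pp δ')‖ * ‖y0‖ :=
          ContinuousLinearMap.le_opNorm _ _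
      _ ≤ ε / ‖y0‖ * ‖y0‖ := mul_le_mul_of_nonneg_right h2 hpos.le
      _ = 0 + ε := by field_simp; ring
  set y := Fop U (aa δ') y0 with hyd
  have s2 := aa_summable hδ'0 hδ'1
  -- approximate eigenvectors
  have hloc : ∀ m : ℕ, ∃ (x : E) (c : ℝ), ‖x‖ = 1 ∧ ‖Co U x - c • x‖ ≤ 1 / ((m : ℝ) + 1) ∧
      Fop U (pp (2 * δ)) x = x ∧ Fop U (pp (δ' / 2)) x = 0 := by
    intro m
    obtain ⟨h, c, hh, hne, hest⟩ := loc U hy (ε := 1 / ((m : ℝ) + 1)) (by positivity)
    have hpos : 0 < ‖Fop U h y‖ := norm_pos_iff.2 hne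
    refine ⟨‖Fop U h y‖⁻¹ • Fop U h y, c, ?_, ?_, ?_, ?_⟩
    · rw [norm_smul, norm_inv, norm_norm, inv_mul_cancel₀ hpos.ne']
    · rw [map_smul, smul_comm, ← smul_sub, norm_smul, norm_inv, norm_norm,
        inv_mul_le_iff₀ hpos, mul_comm]
      exact hest
    · rw [map_smul]
      congr 1
      -- `F_{2δ} F_δ = F_δ`
      have e1 : Fop U (pp δ) * Fop U (aa (2 * δ)) = 0 := Fop_disj U hδ le_rfl hδ1
      have s3 := pp_summable (η := 2 * δ) (by linarith) hδ1
      have s4 := aa_summable (δ := 2 * δ) (by linarith) hδ1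
      have e2 : Fop U (aa (2 * δ)) (Fop U h y) = 0 := by
        have c1 : Fop U (aa (2 * δ)) * (Fop U h * (Fop U (aa δ') * Fop U (pp δ))) = 0 := by
          rw [← mul_assoc, Fop_commute U s4 hh, mul_assoc, ← mul_assoc (Fop U (aa (2 * δ))),
            Fop_commute U s4 s2, mul_assoc (Fop U (aa δ')), Fop_commute U s4 sp, e1, mul_zero,
            mul_zero]
        exact congrArg (fun B : E →L[ℝ] E => B w) c1
      rw [Fop_aa U (by linarith) hδ1] at e2
      exact (sub_eq_zero.1 (show Fop U h y - Fop U (pp (2 * δ)) (Fop U h y) = 0 from e2)).symm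
    · rw [map_smul]
      have e1 : Fop U (pp (δ' / 2)) * Fop U (aa δ') = 0 :=
        Fop_disj U (by linarith) (by linarith) hδ'1
      have s3 := pp_summable (η := δ' / 2) (by linarith) (by linarith)
      have e2 : Fop U (pp (δ' / 2)) (Fop U h y) = 0 := by
        have c1 : Fop U (pp (δ' / 2)) * (Fop U h * Fop U (aa δ')) = 0 := by
          rw [← mul_assoc, Fop_commute U s3 hh, mul_assoc, e1, mul_zero]
        exact congrArg (fun B : E →L[ℝ] E => B y0) c1
      rw [e2, smul_zero]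
  choose x c hx hCx hx1 hx2 using hloc
  have hcb : ∀ m, |c m| ≤ 1 + 1 / ((m : ℝ) + 1) := by
    intro m
    have h2 : ‖c m • x m‖ ≤ ‖Co U (x m)‖ + ‖Co U (x m) - c m • x m‖ := by
      have : c m • x m = Co U (x m) - (Co U (x m) - c m • x m) := by abel
      conv_lhs => rw [this]
      exact norm_sub_le _ _
    rw [norm_smul, hx, mul_one, Real.norm_eq_abs] at h2
    have h3 := Co_norm_le U (x m)
    rw [hx] at h3
    linarith [hCx m]
  have hcI : ∀ m, c m ∈ Set.Icc (-2 : ℝ) 2 := by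
    intro m
    have h2 := hcb m
    have h3 : 1 / ((m : ℝ) + 1) ≤ 1 := by
      rw [div_le_iff₀ (by positivity)]
      have : (0 : ℝ) ≤ m := Nat.cast_nonneg m
      linarith
    have h4 := abs_le.1 (h2.trans (by linarith : 1 + 1 / ((m : ℝ) + 1) ≤ 2))
    exact h4
  obtain ⟨c0, -, ψ, hψ, hlim⟩ := isCompact_Icc.tendsto_subseq hcI
  have hone := tendsto_one_div_add_atTop_nhds_zero_nat (𝕜 := ℝ)
  have honeψ := hone.comp hψ.tendsto_atTop
  have hc0 : |c0| ≤ 1 := by
    have h2 : Tendsto (fun m => |c (ψ m)|) atTop (𝓝 |c0|) := hlim.abs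
    have h3 : Tendsto (fun m => 1 + 1 / (((ψ m : ℕ) : ℝ) + 1)) atTop (𝓝 (1 + 0)) :=
      tendsto_const_nhds.add honeψ
    rw [add_zero] at h3
    exact le_of_tendsto_of_tendsto' h2 h3 fun m => hcb (ψ m)
  obtain ⟨hc01, hc02⟩ := abs_le.1 hc0
  set φ := Real.arccos c0 with hφ
  have hcos : Real.cos φ = c0 := Real.cos_arccos hc01 hc02
  have hlimC : Tendsto (fun m => ‖Co U (x (ψ m)) - Real.cos φ • x (ψ m)‖) atTop (𝓝 0) := by
    rw [hcos]
    have h2 : Tendsto (fun m => 1 / (((ψ m : ℕ) : ℝ) + 1) + |c (ψ m) - c0|) atTop (𝓝 (0 + 0)) := by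
      refine Tendsto.add honeψ ?_
      have := (hlim.sub_const c0).abs
      rw [sub_self, abs_zero] at this
      exact this
    rw [add_zero] at h2
    refine squeeze_zero (fun _ => norm_nonneg _) (fun m => ?_) h2
    have e : Co U (x (ψ m)) - c0 • x (ψ m) =
        (Co U (x (ψ m)) - c (ψ m) • x (ψ m)) + (c (ψ m) - c0) • x (ψ m) := by module
    rw [e]
    refine (norm_add_le _ _).trans (add_le_add (hCx _) ?_)
    rw [norm_smul, hx, mul_one, Real.norm_eq_abs]
  have hpsi1 : psi (2 * δ) φ = 1 := by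
    have h2 := Fop_approx U (fun m => hx (ψ m)) hlimC (pp_summable (η := 2 * δ) (by linarith) hδ1)
      (pp_neg _) (pp_series (by linarith) hδ1 φ)
    have h3 := h2.norm
    rw [norm_zero] at h3
    have h4 : (fun m => ‖Fop U (pp (2 * δ)) (x (ψ m)) - psi (2 * δ) φ • x (ψ m)‖) =
        fun _ => |1 - psi (2 * δ) φ| := by
      funext m
      rw [hx1]
      have : x (ψ m) - psi (2 * δ) φ • x (ψ m) = (1 - psi (2 * δ) φ) • x (ψ m) := by module
      rw [this, norm_smul, hx, mul_one, Real.norm_eq_abs]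
    rw [h4] at h3
    have h5 := tendsto_nhds_unique h3 tendsto_const_nhds
    have h6 := abs_eq_zero.1 h5.symm
    linarith
  have hpsi2 : psi (δ' / 2) φ = 0 := by
    have h2 := Fop_approx U (fun m => hx (ψ m)) hlimC
      (pp_summable (η := δ' / 2) (by linarith) (by linarith))
      (pp_neg _) (pp_series (by linarith) (by linarith) φ)
    have h3 := h2.norm
    rw [norm_zero] at h3
    have h4 : (fun m => ‖Fop U (pp (δ' / 2)) (x (ψ m)) - psi (δ' / 2) φ • x (ψ m)‖) =
        fun _ => |psi (δ' / 2) φ| := by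
      funext m
      rw [hx2, zero_sub, norm_neg, norm_smul, hx, mul_one, Real.norm_eq_abs]
    rw [h4] at h3
    have h5 := tendsto_nhds_unique h3 tendsto_const_nhds
    exact abs_eq_zero.1 h5.symm
  have hb1 : 1 - Real.cos φ < 2 * δ := by
    by_contra hcon
    push Not at hcon
    rw [psi_zero (by linarith) hcon] at hpsi1
    exact zero_ne_one hpsi1
  have hb2 : δ' / 2 / 2 < 1 - Real.cos φ := by
    by_contra hcon
    push Not at hcon
    rw [psi_one (by linarith) hcon] at hpsi2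
    exact one_ne_zero hpsi2
  refine ⟨φ, ?_, ?_, hb1, ?_⟩
  · rcases (Real.arccos_nonneg c0).lt_or_eq with h | h
    · exact h
    · exfalso
      have : Real.cos φ = 1 := by rw [hφ, ← h, Real.cos_zero]
      rw [this] at hb2
      linarith
  · rcases (Real.arccos_le_pi c0).lt_or_eq with h | h
    · exact h
    · exfalso
      have : Real.cos φ = -1 := by rw [hφ, h, Real.cos_pi]
      rw [this] at hb1
      linarith
  · intro ε hε
    obtain ⟨m, hm⟩ := (hlimC.eventually (gt_mem_nhds hε)).exists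
    exact ⟨x (ψ m), hx _, hm.le⟩

end Pool.Agent.J6H26.NS
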