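import Pool.Agent.J6H26.NS.Ba
import Pool.Agent.J6H26.LP.Pn

/-! # Separable transitive spaces with a direct sum decomposition -/

set_option autoImplicit false
set_option linter.unusedSectionVars false

namespace Pool.Agent.J6H26.NS

open Pool.Agent.J6H26.CP Filter Topology

variable {E : Type*} [NormedAddCommGroup E] [NormedSpace ℝ E]

lemma Abs.conj {P : E →L[ℝ] E} (hP : Abs P) (g : E ≃ₗᵢ[ℝ] E) : Abs (LP.cj P g) := by
  have hs : ∀ x, x - LP.cj P g x = g (g.symm x - P (g.symm x)) := by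
    intro x
    rw [LP.cj_apply, map_sub, g.apply_symm_apply]
  constructor
  · intro x
    rw [LP.cj_apply, LP.cj_apply, g.symm_apply_apply, hP.idem]
  · intro x x' h1 h2
    rw [LP.cj_apply, LP.cj_apply, g.norm_map, g.norm_map] at h1
    rw [hs, hs, g.norm_map, g.norm_map] at h2
    have := hP.dep _ _ h1 h2
    rwa [g.symm.norm_map, g.symm.norm_map] at this

lemma Abs.rf_conj {P : E →L[ℝ] E} (hP : Abs P) (g : E ≃ₗᵢ[ℝ] E) (hQ : Abs (LP.cj P g)) :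
    hQ.rf = g * hP.rf * g⁻¹ := by
  ext x
  show hQ.rf x = g (hP.rf (g.symm x))
  rw [Abs.rf_apply, Abs.rf_apply, map_sub, map_smul, g.apply_symm_apply, LP.cj_apply]

/-- the angle below a bound -/
lemma cos_lt {φ ε : ℝ} (h1 : φ < Real.pi) (hε : 0 < ε)
    (h : 1 - Real.cos φ < 1 - Real.cos ε) : φ < ε := by
  by_contra hcon
  push Not at hcon
  have : Real.cos φ ≤ Real.cos ε :=
    Real.cos_le_cos_of_nonneg_of_le_pi hε.le h1.le hcon
  linarith

/-- If the vectors which can be moved by isometries into the range of the projection are not a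
meagre set, then the projection satisfies Pythagoras' theorem. -/
theorem pythagoras [CompleteSpace E] [TopologicalSpace.SeparableSpace E]
    {P : E →L[ℝ] E} (hP : Abs P) (h0 : P ≠ 0) (h1 : P ≠ 1)
    (hm : ¬ IsMeagre {x : E | ∃ g : E ≃ₗᵢ[ℝ] E, P (g x) = g x}) (x : E) :
    ‖x‖ ^ 2 = ‖P x‖ ^ 2 + ‖x - P x‖ ^ 2 := by
  obtain ⟨y, hy⟩ : ∃ y, P y ≠ 0 := by
    by_contra hcon
    push Not at hcon
    exact h0 (by ext z; simpa using hcon z)
  obtain ⟨z, hz⟩ : ∃ z, z - P z ≠ 0 := by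
    by_contra hcon
    push Not at hcon
    apply h1
    ext z
    exact (sub_eq_zero.1 (hcon z)).symm
  set y0 := ‖P y‖⁻¹ • P y with hy0
  set z0 := ‖z - P z‖⁻¹ • (z - P z) with hz0
  have hyn : ‖P y‖ ≠ 0 := norm_ne_zero_iff.2 hy
  have hzn : ‖z - P z‖ ≠ 0 := norm_ne_zero_iff.2 hz
  have hy1 : ‖y0‖ = 1 := by rw [hy0, norm_smul, norm_inv, norm_norm, inv_mul_cancel₀ hyn]
  have hz1 : ‖z0‖ = 1 := by rw [hz0, norm_smul, norm_inv, norm_norm, inv_mul_cancel₀ hzn]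
  have hPy0 : P y0 = y0 := by rw [hy0, map_smul, hP.idem]
  have hPz0 : P z0 = 0 := by rw [hz0, map_smul, map_sub, hP.idem, sub_self, smul_zero]
  refine hP.pyth hPy0 hPz0 hy1 hz1 (fun t ht0 ht1 => hP.circle hPy0 hPz0 hy1 hz1 ?_ ht0 ht1) x
  intro ε hε
  -- the bound for the angle
  set ε1 := min ε 1 with hε1
  have hε10 : 0 < ε1 := by positivity
  have hε11 : ε1 ≤ 1 := min_le_right _ _
  have hpi := Real.pi_gt_three
  have hcl : Real.cos ε1 < 1 := by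
    have := Real.cos_lt_cos_of_nonneg_of_le_pi le_rfl (by linarith : ε1 ≤ Real.pi) hε10
    rwa [Real.cos_zero] at this
  have hcp : 0 ≤ Real.cos ε1 := Real.cos_nonneg_of_neg_pi_div_two_le_of_le (by linarith)
    (by linarith)
  obtain ⟨κ, hκ, hsm⟩ := small_angle (E := E) (δ := (1 - Real.cos ε1) / 2) (by linarith)
    (by linarith)
  -- the family of the conjugates
  obtain ⟨_, ⟨g0, rfl⟩, _, ⟨g1, rfl⟩, hA0, hA1, z, w, hzw, hw, hww⟩ :=
    baire_abs (Set.range fun g : E ≃ₗᵢ[ℝ] E => LP.cj P g) (by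
      rintro _ ⟨g, rfl⟩
      refine ⟨hP.conj g, fun h => h1 ?_⟩
      ext x
      have := congrArg (fun B : E →L[ℝ] E => B (g x)) h
      simp only [LP.cj_apply, g.symm_apply_apply] at this
      exact g.injective this) (by
      intro h
      apply hm
      refine h.mono ?_
      rintro x ⟨g, hg⟩
      refine ⟨_, ⟨g.symm, rfl⟩, ?_⟩
      show LP.cj P g.symm x = x
      rw [LP.cj_apply, LinearIsometryEquiv.symm_symm, hg, g.symm_apply_apply]) hκ
  set s := hP.rf with hs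
  have hss : s * s = 1 := hP.rf_mul
  have hsinv : s⁻¹ = s := inv_eq_of_mul_eq_one_left hss
  set U : E ≃ₗᵢ[ℝ] E := g0⁻¹ * hA1.rf * g0 * s with hU
  have h11 : hA1.rf * hA1.rf = 1 := hA1.rf_mul
  have h11inv : hA1.rf⁻¹ = hA1.rf := inv_eq_of_mul_eq_one_left h11
  have hUinv : s * U * s = U⁻¹ := by
    rw [hU, mul_inv_rev, mul_inv_rev, mul_inv_rev, inv_inv, hsinv, h11inv]
    simp only [mul_assoc, hss, mul_one]
  have hUe : ∀ v, U (g0⁻¹ v) = g0⁻¹ (hA1.rf (hA0.rf v)) := by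
    intro v
    have h2 : hA0.rf v = g0 (s (g0⁻¹ v)) := by rw [hP.rf_conj g0 hA0]; rfl
    rw [h2]
    rfl
  obtain ⟨φ, hφ0, hφ1, hφ2, hφ3⟩ := hsm U (g0⁻¹ z) (g0⁻¹ w) (by rw [hUe, ← map_sub, hzw])
    (by
      intro h
      exact hw ((map_eq_zero_iff _ (g0⁻¹).injective).1 h))
    (by rw [hUe, ← map_sub, (g0⁻¹).norm_map, (g0⁻¹).norm_map]; exact hww)
  refine ⟨φ, hφ0, (cos_lt hφ1 hε10 (by linarith)).trans_le (min_le_left _ _), ?_⟩
  intro ε' hε'
  have hc1 : |Real.cos φ| < 1 := by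
    have hsin : 0 < Real.sin φ := Real.sin_pos_of_pos_of_lt_pi hφ0 hφ1
    rw [← sq_lt_one_iff_abs_lt_one]
    have := Real.sin_sq_add_cos_sq φ
    nlinarith
  obtain ⟨x, hx1, hx2, hx3⟩ := hP.part hUinv hc1 hφ3 hε'
  exact ⟨U, x, hUinv, hx1, hx2, hx3⟩

/-- **Separable spaces with dense orbits and a projection such that the norm depends only on the norms
of the two parts are Hilbert spaces, if the vectors which can be moved into the range are not a meagre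
set.** -/
theorem par_abs [CompleteSpace E] [TopologicalSpace.SeparableSpace E]
    (hG : ∀ x y : E, ‖x‖ = 1 → ‖y‖ = 1 → ∀ ε : ℝ, 0 < ε → ∃ g : E ≃ₗᵢ[ℝ] E, ‖g x - y‖ < ε)
    {P : E →L[ℝ] E} (hP : Abs P) (h0 : P ≠ 0) (h1 : P ≠ 1)
    (hm : ¬ IsMeagre {x : E | ∃ g : E ≃ₗᵢ[ℝ] E, P (g x) = g x}) (x y : E) :
    ‖x + y‖ ^ 2 + ‖x - y‖ ^ 2 = 2 * (‖x‖ ^ 2 + ‖y‖ ^ 2) := by
  have hpy := pythagoras hP h0 h1 hm
  have hspl : LP.Spl (LP.pn E 2) P := by
    refine ⟨hP.idem, fun x => ?_⟩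
    simp only [LP.pn, Real.rpow_two]
    exact hpy x
  have hconj : ∀ g : E ≃ₗᵢ[ℝ] E, LP.Spl (LP.pn E 2) (LP.cj P g) := by
    intro g
    refine ⟨(hP.conj g).idem, fun x => ?_⟩
    simp only [LP.pn, Real.rpow_two]
    have h2 := hpy (g.symm x)
    rw [g.symm.norm_map] at h2
    rw [h2, LP.cj_apply, g.norm_map]
    congr 2
    rw [← g.norm_map (g.symm x - P (g.symm x)), map_sub, g.apply_symm_apply]
  by_cases hcomm : ∀ g : E ≃ₗᵢ[ℝ] E, P * LP.cj P g = LP.cj P g * P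
  · exfalso
    obtain ⟨z, hz⟩ : ∃ z, z - P z ≠ 0 := by
      by_contra hcon
      push Not at hcon
      apply h1
      ext z
      exact (sub_eq_zero.1 (hcon z)).symm
    have hcj : ∀ g : E ≃ₗᵢ[ℝ] E, ∀ x, LP.cj (1 - P) g x = x - LP.cj P g x := by
      intro g x
      rw [LP.cj_apply, LP.cj_apply]
      show g (g.symm x - P (g.symm x)) = _
      rw [map_sub, g.apply_symm_apply]
    -- all conjugates commute
    have hcc : ∀ g h : E ≃ₗᵢ[ℝ] E, ∀ x, LP.cj P g (LP.cj P h x) = LP.cj P h (LP.cj P g x) := by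
      intro g h x
      have h1 : P (LP.cj P (g⁻¹ * h) (g.symm x)) = LP.cj P (g⁻¹ * h) (P (g.symm x)) :=
        congrArg (fun B : E →L[ℝ] E => B (g.symm x)) (hcomm (g⁻¹ * h))
      have e1 : ∀ z, LP.cj P (g⁻¹ * h) z = g.symm (h (P (h.symm (g z)))) := fun z => rfl
      rw [e1, e1, g.apply_symm_apply] at h1
      simp only [LP.cj_apply]
      rw [h1, g.apply_symm_apply]
    refine LP.baire_comm (Set.range fun g : E ≃ₗᵢ[ℝ] E => LP.cj (1 - P) g) ?_ zero_le_one ?_ ?_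
    · rintro _ ⟨g, rfl⟩ _ ⟨h, rfl⟩ x
      show LP.cj (1 - P) g (LP.cj (1 - P) h x) = LP.cj (1 - P) h (LP.cj (1 - P) g x)
      simp only [hcj, map_sub]
      rw [hcc g h]
      abel
    · rintro _ ⟨g, rfl⟩ x
      show ‖LP.cj (1 - P) g x‖ ≤ 1 * ‖x‖
      rw [hcj, one_mul]
      exact (hP.conj g).norm_le' x
    · intro h
      apply hm
      refine h.mono ?_
      rintro x ⟨g, hg⟩
      refine ⟨_, ⟨g.symm, rfl⟩, ?_, g.symm z, ?_⟩
      · show LP.cj (1 - P) g.symm x = 0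
        rw [hcj, LP.cj_apply, LinearIsometryEquiv.symm_symm, hg, g.symm_apply_apply, sub_self]
      · show LP.cj (1 - P) g.symm (LP.cj (1 - P) g.symm (g.symm z)) ≠ 0
        rw [hcj, hcj, map_sub, (hP.conj g.symm).idem, sub_self, sub_zero, LP.cj_apply,
          LinearIsometryEquiv.symm_symm, g.apply_symm_apply, ← map_sub]
        intro h2
        exact hz ((map_eq_zero_iff _ g.symm.injective).1 h2)
  · push Not at hcomm
    obtain ⟨g, hg⟩ := hcomm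
    obtain ⟨-, v, hv, hpar⟩ := LP.exists_par (by norm_num) hspl (hconj g) hg
    exact LP.par_of_dense hG hv hpar y x

/-- The same for complementary subspaces. -/
theorem par_compl [CompleteSpace E] [TopologicalSpace.SeparableSpace E]
    (hG : ∀ x y : E, ‖x‖ = 1 → ‖y‖ = 1 → ∀ ε : ℝ, 0 < ε → ∃ g : E ≃ₗᵢ[ℝ] E, ‖g x - y‖ < ε)
    (Y Z : Submodule ℝ E) (hYZ : IsCompl Y Z) (hY : Y ≠ ⊥) (hZ : Z ≠ ⊥)
    (hN : ∀ y ∈ Y, ∀ y' ∈ Y, ∀ z ∈ Z, ∀ z' ∈ Z, ‖y‖ = ‖y'‖ → ‖z‖ = ‖z'‖ → ‖y + z‖ = ‖y' + z'‖)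
    (hm : ¬ IsMeagre {x : E | ∃ g : E ≃ₗᵢ[ℝ] E, g x ∈ Y})
    (x y : E) : ‖x + y‖ ^ 2 + ‖x - y‖ ^ 2 = 2 * (‖x‖ ^ 2 + ‖y‖ ^ 2) := by
  have hle : ∀ y ∈ Y, ∀ z ∈ Z, ‖y‖ ≤ ‖y + z‖ := by
    intro y hy z hz
    have h1 := hN y hy y hy z hz (-z) (Z.neg_mem hz) rfl (norm_neg z).symm
    have h2 := norm_add_le (y + z) (y + -z)
    have e : y + z + (y + -z) = (2 : ℝ) • y := by module
    rw [e, norm_smul, Real.norm_of_nonneg (by norm_num), ← h1] at h2
    linarith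
  have hmem : ∀ x, Y.projection Z hYZ x ∈ Y := fun x => Submodule.projection_apply_mem hYZ x
  have hmem' : ∀ x, x - Y.projection Z hYZ x ∈ Z := by
    intro x
    rw [← Submodule.projection_apply_eq_zero_iff hYZ, map_sub]
    rw [Submodule.projection_apply_left hYZ ⟨_, hmem x⟩, sub_self]
  set P : E →L[ℝ] E := LinearMap.mkContinuous (Y.projection Z hYZ) 1 (by
    intro x
    rw [one_mul]
    have := hle _ (hmem x) _ (hmem' x)
    rwa [add_sub_cancel] at this) with hPdef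
  have hPa : ∀ x, P x = Y.projection Z hYZ x := fun x => rfl
  have hPY : ∀ y ∈ Y, P y = y := fun y hy => by
    rw [hPa]
    exact Submodule.projection_apply_left hYZ ⟨y, hy⟩
  have hP : Abs P := by
    constructor
    · intro x
      exact hPY _ (hmem x)
    · intro x x' h1 h2
      have := hN _ (hmem x) _ (hmem x') _ (hmem' x) _ (hmem' x') h1 h2
      rwa [add_sub_cancel, add_sub_cancel] at this
  refine par_abs hG hP ?_ ?_ (fun h => hm (h.mono ?_)) x y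
  · intro h
    apply hY
    rw [Submodule.eq_bot_iff]
    intro y hy
    rw [← hPY y hy, h]
    rfl
  · intro h
    apply hZ
    rw [Submodule.eq_bot_iff]
    intro z hz
    have h2 : Y.projection Z hYZ z = 0 := (Submodule.projection_apply_eq_zero_iff hYZ).2 hz
    have h3 : P z = z := by rw [h]; rfl
    rw [← h3, hPa, h2]
  · rintro x ⟨g, hg⟩
    exact ⟨g, hPY _ hg⟩

/-- The transitive case. -/
theorem par_trans [CompleteSpace E] [TopologicalSpace.SeparableSpace E]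
    (hG : ∀ x y : E, ‖x‖ = 1 → ‖y‖ = 1 → ∃ g : E ≃ₗᵢ[ℝ] E, g x = y)
    (Y Z : Submodule ℝ E) (hYZ : IsCompl Y Z) (hY : Y ≠ ⊥) (hZ : Z ≠ ⊥)
    (hN : ∀ y ∈ Y, ∀ y' ∈ Y, ∀ z ∈ Z, ∀ z' ∈ Z, ‖y‖ = ‖y'‖ → ‖z‖ = ‖z'‖ → ‖y + z‖ = ‖y' + z'‖)
    (x y : E) : ‖x + y‖ ^ 2 + ‖x - y‖ ^ 2 = 2 * (‖x‖ ^ 2 + ‖y‖ ^ 2) := by
  refine par_compl (fun x y hx hy ε hε => ?_) Y Z hYZ hY hZ hN (LP.not_meagre fun x => ?_) x y
  · obtain ⟨g, hg⟩ := hG x y hx hy
    exact ⟨g, by rw [hg, sub_self, norm_zero]; exact hε⟩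
  · obtain ⟨y0, hy0, hne⟩ := (Submodule.ne_bot_iff Y).1 hY
    by_cases hx : x = 0
    · exact ⟨1, by subst hx; rw [map_zero]; exact Y.zero_mem⟩
    · have hxn : ‖x‖ ≠ 0 := norm_ne_zero_iff.2 hx
      have hyn : ‖y0‖ ≠ 0 := norm_ne_zero_iff.2 hne
      obtain ⟨g, hg⟩ := hG (‖x‖⁻¹ • x) (‖y0‖⁻¹ • y0) (by simp [norm_smul, hxn])
        (by simp [norm_smul, hyn])
      refine ⟨g, ?_⟩
      have e : g x = ‖x‖ • (‖y0‖⁻¹ • y0) := by
        rw [← hg, ← map_smul, smul_inv_smul₀ hxn]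
      rw [e]
      exact Y.smul_mem _ (Y.smul_mem _ hy0)

end Pool.Agent.J6H26.NS
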